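import Mathlib

/-!
Orthonormal coordinates `ℝ × ℝ^m → ℝ^(m+1)`.
-/

namespace Pool.Agent.X151.VB

open MeasureTheory Set Metric Filter
open scoped ContDiff Topology

/-- Euclidean space. -/
abbrev E (n : ℕ) : Type := EuclideanSpace ℝ (Fin n)

/-- The coordinate space. -/
abbrev F (m : ℕ) : Type := ℝ × (Fin m → ℝ)

/-- Smooth functions with compact support in `Ω`. -/
def Test {X : Type} [NormedAddCommGroup X] [NormedSpace ℝ X] (Ω : Set X) (w : X → ℝ) : Prop :=
  ContDiff ℝ ∞ w ∧ HasCompactSupport w ∧ tsupport w ⊆ Ω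

section
variable {m : ℕ} (b : OrthonormalBasis (Fin (m + 1)) ℝ (E (m + 1)))

/-- The linear part of the coordinates. -/
noncomputable def Lam : F m ≃ₗ[ℝ] E (m + 1) :=
  (Fin.consLinearEquiv ℝ (fun _ : Fin (m + 1) => ℝ)).trans
    ((WithLp.linearEquiv 2 ℝ (Fin (m + 1) → ℝ)).symm.trans b.repr.symm.toLinearEquiv)

/-- The linear part of the coordinates, as a continuous linear equivalence. -/
noncomputable def LamL : F m ≃L[ℝ] E (m + 1) := (Lam b).toContinuousLinearEquiv

theorem Lam_eq (p : F m) : LamL b p = b.repr.symm (WithLp.toLp 2 (Fin.cons p.1 p.2)) := rfl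

theorem Lam_apply (p : F m) : LamL b p = p.1 • b 0 + ∑ i, p.2 i • b i.succ := by
  rw [Lam_eq, ← b.sum_repr_symm, Fin.sum_univ_succ]
  simp

theorem Lam_mp : MeasurePreserving (LamL b) (volume : Measure (F m)) volume := by
  have h1 := (volume_preserving_piFinSuccAbove (fun _ : Fin (m + 1) => ℝ) 0).symm
  have h2 := PiLp.volume_preserving_toLp (Fin (m + 1))
  have h3 := b.measurePreserving_repr_symm
  have h := h3.comp (h2.comp h1)
  have e : (LamL b : F m → E (m + 1)) = b.repr.symm ∘ WithLp.toLp 2 ∘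
      (MeasurableEquiv.piFinSuccAbove (fun _ : Fin (m + 1) => ℝ) 0).symm := by
    funext p
    rw [Lam_eq, ← Fin.insertNth_zero']
    rfl
  rw [e]
  exact h

/-- The coordinates with origin `a`. -/
noncomputable def Phi (a : E (m + 1)) (p : F m) : E (m + 1) := a + LamL b p

theorem Phi_mp (a : E (m + 1)) : MeasurePreserving (Phi b a) (volume : Measure (F m)) volume :=
  (measurePreserving_add_left volume a).comp (Lam_mp b)

theorem Phi_emb (a : E (m + 1)) : MeasurableEmbedding (Phi b a) :=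
  (MeasurableEquiv.addLeft a).measurableEmbedding.comp
    (LamL b).toHomeomorph.measurableEmbedding

theorem int_Phi (a : E (m + 1)) (f : E (m + 1) → ℝ) : ∫ p, f (Phi b a p) = ∫ x, f x :=
  (Phi_mp b a).integral_comp (Phi_emb b a) f

theorem Phi_smooth (a : E (m + 1)) : ContDiff ℝ ∞ (Phi b a) :=
  contDiff_const.add (LamL b).contDiff

theorem Phi_deriv (a : E (m + 1)) (p : F m) :
    HasFDerivAt (Phi b a) (LamL b : F m →L[ℝ] E (m + 1)) p :=
  (LamL b).hasFDerivAt.const_add a

theorem Test.comp_Phi (a : E (m + 1)) {Ω : Set (E (m + 1))} {w : E (m + 1) → ℝ}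
    (hw : Test Ω w) : Test (Phi b a ⁻¹' Ω) (w ∘ Phi b a) := by
  obtain ⟨h1, h2, h3⟩ := hw
  have hc : Topology.IsClosedEmbedding (Phi b a) :=
    (Homeomorph.addLeft a).isClosedEmbedding.comp (LamL b).toHomeomorph.isClosedEmbedding
  refine ⟨h1.comp (Phi_smooth b a), h2.comp_isClosedEmbedding hc, ?_⟩
  exact (tsupport_comp_subset_preimage w (Phi_smooth b a).continuous).trans (preimage_mono h3)

/-- The derivative in the first variable. -/
noncomputable def ds (W : F m → ℝ) (p : F m) : ℝ := fderiv ℝ W p (1, 0)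

/-- The sum of the squares of the other derivatives. -/
noncomputable def ey (W : F m → ℝ) (p : F m) : ℝ :=
  ∑ i, (fderiv ℝ W p (0, Pi.single i 1)) ^ 2

theorem ds_comp (a : E (m + 1)) {w : E (m + 1) → ℝ} (hw : Differentiable ℝ w) (p : F m) :
    ds (w ∘ Phi b a) p = fderiv ℝ w (Phi b a p) (b 0) := by
  unfold ds
  rw [((hw _).hasFDerivAt.comp p (Phi_deriv b a p)).fderiv]
  show fderiv ℝ w (Phi b a p) (LamL b (1, 0)) = _
  rw [Lam_apply]
  simp

theorem norm_sq_fderiv (w : E (m + 1) → ℝ) (x : E (m + 1)) :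
    ‖fderiv ℝ w x‖ ^ 2 = ∑ i, (fderiv ℝ w x (b i)) ^ 2 := by
  have h1 : ‖fderiv ℝ w x‖ = ‖gradient w x‖ := by
    unfold gradient
    rw [LinearIsometryEquiv.norm_map]
  rw [h1, ← b.sum_sq_norm_inner_left]
  apply Finset.sum_congr rfl
  intro i _
  unfold gradient
  rw [InnerProductSpace.toDual_symm_apply, Real.norm_eq_abs, sq_abs]

theorem en_comp (a : E (m + 1)) {w : E (m + 1) → ℝ} (hw : Differentiable ℝ w) (p : F m) :
    ds (w ∘ Phi b a) p ^ 2 + ey (w ∘ Phi b a) p = ‖fderiv ℝ w (Phi b a p)‖ ^ 2 := by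
  rw [norm_sq_fderiv b, Fin.sum_univ_succ, ds_comp b a hw]
  congr 1
  unfold ey
  apply Finset.sum_congr rfl
  intro i _
  rw [((hw _).hasFDerivAt.comp p (Phi_deriv b a p)).fderiv]
  show (fderiv ℝ w (Phi b a p) (LamL b (0, Pi.single i 1))) ^ 2 = _
  rw [Lam_apply]
  simp [Pi.single_apply]

end

end Pool.Agent.X151.VB
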