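import Pool.Agent.X151.VB.Coord

/-!
A one-dimensional bound for the mass of a function in a slab.
-/

namespace Pool.Agent.X151.VB

open MeasureTheory Set Metric Filter
open scoped ContDiff Topology

theorem int_sq {X : Type} [TopologicalSpace X] [MeasurableSpace X] [OpensMeasurableSpace X]
    {μ : Measure X} [IsFiniteMeasureOnCompacts μ] {f : X → ℝ} (h1 : Continuous f)
    (h2 : HasCompactSupport f) : Integrable (fun x => f x ^ 2) μ := by
  have h3 : HasCompactSupport (fun x => f x ^ 2) := by
    have h4 : (fun x => f x ^ 2) = f * f := by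
      funext x
      simp [sq]
    rw [h4]
    exact h2.mul_right
  have h5 : Continuous (fun x => f x ^ 2) := by fun_prop
  exact h5.integrable_of_hasCompactSupport h3

theorem oneD {h : ℝ → ℝ} (h1 : ContDiff ℝ ∞ h) (h2 : HasCompactSupport h) {α : ℝ} (hα : 0 < α)
    (s : ℝ) : h s ^ 2 ≤ ∫ t, (α * h t ^ 2 + α⁻¹ * deriv h t ^ 2) := by
  have c1 : ContDiff ℝ 1 (fun t => h t ^ 2) := (h1.pow 2).of_le (by simp)
  have c2 : HasCompactSupport (fun t => h t ^ 2) := by
    refine h2.comp_left (g := fun t => t ^ 2) (by norm_num)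
  have c3 := c2.integral_Iic_deriv_eq c1 s
  have d1 : ∀ t, deriv (fun t => h t ^ 2) t = 2 * h t * deriv h t := by
    intro t
    have := ((h1.differentiable (by simp)) t).hasDerivAt.fun_pow 2
    rw [this.deriv]
    norm_num
  have i1 : Integrable (fun t => α * h t ^ 2 + α⁻¹ * deriv h t ^ 2) := by
    have a1 : Integrable (fun t => h t ^ 2) := c1.continuous.integrable_of_hasCompactSupport c2
    have a2 : Integrable (fun t => deriv h t ^ 2) := by
      refine Continuous.integrable_of_hasCompactSupport ?_ ?_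
      · exact (h1.continuous_deriv (by simp)).pow 2
      · exact h2.deriv.comp_left (g := fun t => t ^ 2) (by norm_num)
    exact (a1.const_mul _).add (a2.const_mul _)
  have i2 : Integrable (fun t => 2 * h t * deriv h t) := by
    refine Continuous.integrable_of_hasCompactSupport ?_ ?_
    · exact (continuous_const.mul h1.continuous).mul (h1.continuous_deriv (by simp))
    · exact h2.deriv.mul_left
  rw [← c3]
  simp only [d1]
  refine (setIntegral_mono_on i2.integrableOn i1.integrableOn measurableSet_Iic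
    (fun t _ => ?_)).trans (setIntegral_le_integral i1 ?_)
  · have e : α * h t ^ 2 + α⁻¹ * deriv h t ^ 2 - 2 * h t * deriv h t =
        α * (h t - α⁻¹ * deriv h t) ^ 2 := by
      field_simp
      ring
    nlinarith [mul_nonneg hα.le (sq_nonneg (h t - α⁻¹ * deriv h t))]
  · filter_upwards with t
    show (0:ℝ) ≤ _
    positivity

section
variable {m : ℕ}

theorem Test.slice_s {U : Set (F m)} {W : F m → ℝ} (hW : Test U W) (y : Fin m → ℝ) :
    ContDiff ℝ ∞ (fun s => W (s, y)) ∧ HasCompactSupport (fun s => W (s, y)) ∧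
      ∀ s, deriv (fun s => W (s, y)) s = ds W (s, y) := by
  obtain ⟨h1, h2, -⟩ := hW
  have hc : Topology.IsClosedEmbedding (fun s : ℝ => ((s, y) : F m)) := by
    refine Topology.IsClosedEmbedding.of_continuous_injective_isClosedMap (by fun_prop) ?_ ?_
    · intro s t hst
      simpa using hst
    · intro K hK
      have : (fun s : ℝ => ((s, y) : F m)) '' K = K ×ˢ {y} := by
        ext ⟨s, z⟩
        constructor
        · rintro ⟨a, b, h⟩
          obtain ⟨rfl, rfl⟩ := Prod.mk.inj h
          exact ⟨b, rfl⟩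
        · rintro ⟨a, h⟩
          exact ⟨s, a, by simp only [mem_singleton_iff] at h; simp [h]⟩
      rw [this]
      exact hK.prod isClosed_singleton
  refine ⟨h1.comp (by fun_prop), h2.comp_isClosedEmbedding hc, fun s => ?_⟩
  have e1 : HasDerivAt (fun s : ℝ => ((s, y) : F m)) (1, 0) s :=
    (hasDerivAt_id s).prodMk (hasDerivAt_const s y)
  have e2 := ((h1.differentiable (by simp)) (s, y)).hasFDerivAt.comp_hasDerivAt s e1
  exact e2.deriv

theorem Test.slice_y {U : Set (F m)} {W : F m → ℝ} (hW : Test U W) (s : ℝ) :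
    Test {y | (s, y) ∈ U} (fun y => W (s, y)) ∧
      ∀ y v, fderiv ℝ (fun y => W (s, y)) y v = fderiv ℝ W (s, y) (0, v) := by
  obtain ⟨h1, h2, h3⟩ := hW
  have hc : Topology.IsClosedEmbedding (fun y : Fin m → ℝ => ((s, y) : F m)) := by
    refine Topology.IsClosedEmbedding.of_continuous_injective_isClosedMap (by fun_prop) ?_ ?_
    · intro s t hst
      simpa using hst
    · intro K hK
      have : (fun y : Fin m → ℝ => ((s, y) : F m)) '' K = {s} ×ˢ K := by
        ext ⟨t, z⟩
        constructor
        · rintro ⟨a, b, h⟩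
          obtain ⟨rfl, rfl⟩ := Prod.mk.inj h
          exact ⟨rfl, b⟩
        · rintro ⟨a, h⟩
          exact ⟨z, h, by simp only [mem_singleton_iff] at a; simp [a]⟩
      rw [this]
      exact isClosed_singleton.prod hK
  refine ⟨⟨h1.comp (by fun_prop), h2.comp_isClosedEmbedding hc, ?_⟩, fun y v => ?_⟩
  · exact (tsupport_comp_subset_preimage W hc.continuous).trans (preimage_mono h3)
  · have e1 : HasFDerivAt (fun y : Fin m → ℝ => ((s, y) : F m))
        (ContinuousLinearMap.inr ℝ ℝ (Fin m → ℝ)) y := hasFDerivAt_prodMk_right s y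
    have e2 := ((h1.differentiable (by simp)) (s, y)).hasFDerivAt.comp y e1
    have e3 : fderiv ℝ (fun y => W (s, y)) y = _ := e2.fderiv
    rw [e3]
    rfl

theorem cont_ds {W : F m → ℝ} (h1 : ContDiff ℝ ∞ W) : Continuous (ds W) :=
  (h1.continuous_fderiv (by simp)).clm_apply continuous_const

theorem supp_ds {W : F m → ℝ} (h2 : HasCompactSupport W) : HasCompactSupport (ds W) :=
  (h2.fderiv ℝ).comp_left (g := fun L : F m →L[ℝ] ℝ => L (1, 0)) rfl

theorem cont_ey {W : F m → ℝ} (h1 : ContDiff ℝ ∞ W) : Continuous (ey W) := by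
  unfold ey
  refine continuous_finsetSum _ (fun i _ => ?_)
  exact ((h1.continuous_fderiv (by simp)).clm_apply continuous_const).pow 2

theorem supp_ey {W : F m → ℝ} (h2 : HasCompactSupport W) : HasCompactSupport (ey W) :=
  (h2.fderiv ℝ).comp_left (g := fun L : F m →L[ℝ] ℝ => ∑ i, (L (0, Pi.single i 1)) ^ 2) (by simp)

theorem int_W2 {U : Set (F m)} {W : F m → ℝ} (hW : Test U W) : Integrable (fun p => W p ^ 2) :=
  int_sq hW.1.continuous hW.2.1

theorem int_ds2 {U : Set (F m)} {W : F m → ℝ} (hW : Test U W) :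
    Integrable (fun p => ds W p ^ 2) :=
  int_sq (cont_ds hW.1) (supp_ds hW.2.1)

theorem int_ey {U : Set (F m)} {W : F m → ℝ} (hW : Test U W) : Integrable (ey W) := by
  have h1 := cont_ey hW.1
  have h2 := supp_ey hW.2.1
  exact h1.integrable_of_hasCompactSupport h2

/-- The mass of a function in a slab. -/
theorem slab {U : Set (F m)} {W : F m → ℝ} (hW : Test U W) {α r : ℝ} (hα : 0 < α) (hr : 0 ≤ r)
    (s0 : ℝ) : ∫ p in (Icc (s0 - r) (s0 + r) ×ˢ univ : Set (F m)), W p ^ 2 ≤
      2 * r * (α * (∫ p, W p ^ 2) + α⁻¹ * ∫ p, ds W p ^ 2) := by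
  set Z := α * (∫ p, W p ^ 2) + α⁻¹ * ∫ p, ds W p ^ 2 with hZ
  have hslice : ∀ s, ∫ y, W (s, y) ^ 2 ≤ Z := by
    intro s
    have i0 : Integrable (fun p : F m => α * W p ^ 2 + α⁻¹ * ds W p ^ 2) :=
      ((int_W2 hW).const_mul _).add ((int_ds2 hW).const_mul _)
    have e1 : Z = ∫ p : F m, (α * W p ^ 2 + α⁻¹ * ds W p ^ 2) := by
      rw [integral_add ((int_W2 hW).const_mul _) ((int_ds2 hW).const_mul _),
        integral_const_mul, integral_const_mul]
    have e2 : Z = ∫ y : Fin m → ℝ, ∫ t : ℝ, (α * W (t, y) ^ 2 + α⁻¹ * ds W (t, y) ^ 2) := by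
      rw [e1]
      exact integral_prod_symm _ i0
    rw [e2]
    refine integral_mono ?_ ?_ (fun y => ?_)
    · obtain ⟨ht, -⟩ := hW.slice_y s
      exact int_sq ht.1.continuous ht.2.1
    · exact i0.integral_prod_right
    · obtain ⟨a1, a2, a3⟩ := hW.slice_s y
      have := oneD a1 a2 hα s
      simpa only [a3] using this
  have e3 : ∫ p in (Icc (s0 - r) (s0 + r) ×ˢ univ : Set (F m)), W p ^ 2 =
      ∫ s in Icc (s0 - r) (s0 + r), ∫ y, W (s, y) ^ 2 := by
    have := setIntegral_prod (μ := (volume : Measure ℝ)) (ν := (volume : Measure (Fin m → ℝ)))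
      (s := Icc (s0 - r) (s0 + r)) (t := univ) (fun p : F m => W p ^ 2)
      (int_W2 hW).integrableOn
    rw [Measure.volume_eq_prod, this]
    simp only [Measure.restrict_univ]
  rw [e3]
  have i1 : Integrable (fun s => ∫ y, W (s, y) ^ 2) := (int_W2 hW).integral_prod_left
  calc ∫ s in Icc (s0 - r) (s0 + r), ∫ y, W (s, y) ^ 2
      ≤ ∫ s in Icc (s0 - r) (s0 + r), Z := by
        refine setIntegral_mono i1.integrableOn ?_ (fun s => hslice s)
        exact integrableOn_const (by simp)
    _ = 2 * r * Z := by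
        rw [setIntegral_const, smul_eq_mul]
        congr 1
        rw [Real.volume_real_Icc_of_le (by linarith)]
        ring

end

end Pool.Agent.X151.VB
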