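import Pool.Agent.X151.VB.Lim
import Pool.Agent.X151.VB.Slab

/-!
Kato's inequality for an eigenfunction given as a limit of test functions.
-/

namespace Pool.Agent.X151.VB

open MeasureTheory Set Metric Filter
open scoped ContDiff Topology

/-! ### A smooth version of the absolute value -/

/-- `√(t² + δ²)`. -/
noncomputable def bb (δ t : ℝ) : ℝ := √(t ^ 2 + δ ^ 2)

/-- The derivative of `bb`. -/
noncomputable def bp (δ t : ℝ) : ℝ := t / √(t ^ 2 + δ ^ 2)

theorem bb_pos {δ : ℝ} (hδ : 0 < δ) (t : ℝ) : 0 < t ^ 2 + δ ^ 2 := by positivity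

theorem bb_smooth {δ : ℝ} (hδ : 0 < δ) : ContDiff ℝ ∞ (bb δ) := by
  unfold bb
  exact ContDiff.sqrt (by fun_prop) (fun t => (bb_pos hδ t).ne')

theorem bp_smooth {δ : ℝ} (hδ : 0 < δ) : ContDiff ℝ ∞ (bp δ) := by
  unfold bp
  refine ContDiff.div contDiff_id (ContDiff.sqrt (by fun_prop) (fun t => (bb_pos hδ t).ne')) ?_
  intro t
  exact (Real.sqrt_pos.2 (bb_pos hδ t)).ne'

theorem bb_deriv {δ : ℝ} (hδ : 0 < δ) (t : ℝ) : HasDerivAt (bb δ) (bp δ t) t := by
  have h1 : HasDerivAt (fun t : ℝ => t ^ 2 + δ ^ 2) (2 * t) t := by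
    simpa using ((hasDerivAt_id t).pow 2).add_const (δ ^ 2)
  have h2 := h1.sqrt (bb_pos hδ t).ne'
  refine h2.congr_deriv ?_
  unfold bp
  have h3 : 0 < √(t ^ 2 + δ ^ 2) := Real.sqrt_pos.2 (bb_pos hδ t)
  field_simp

theorem bp_deriv {δ : ℝ} (hδ : 0 < δ) (t : ℝ) :
    HasDerivAt (bp δ) (δ ^ 2 / (t ^ 2 + δ ^ 2) / √(t ^ 2 + δ ^ 2)) t := by
  have h3 : 0 < √(t ^ 2 + δ ^ 2) := Real.sqrt_pos.2 (bb_pos hδ t)
  have h4 : √(t ^ 2 + δ ^ 2) ^ 2 = t ^ 2 + δ ^ 2 := Real.sq_sqrt (bb_pos hδ t).le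
  have h2 := (hasDerivAt_id t).div (bb_deriv hδ t) h3.ne'
  refine h2.congr_deriv ?_
  unfold bb bp
  rw [id, ← h4, Real.sqrt_sq h3.le]
  field_simp
  linarith

theorem bpp_nonneg (δ t : ℝ) : 0 ≤ δ ^ 2 / (t ^ 2 + δ ^ 2) / √(t ^ 2 + δ ^ 2) := by positivity

theorem bpp_le {δ : ℝ} (hδ : 0 < δ) (t : ℝ) :
    δ ^ 2 / (t ^ 2 + δ ^ 2) / √(t ^ 2 + δ ^ 2) ≤ δ⁻¹ := by
  have h1 : δ ≤ √(t ^ 2 + δ ^ 2) := Real.le_sqrt_of_sq_le (by nlinarith [sq_nonneg t])
  have h2 : δ ^ 2 / (t ^ 2 + δ ^ 2) ≤ 1 := by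
    rw [div_le_one (bb_pos hδ t)]
    nlinarith [sq_nonneg t]
  calc δ ^ 2 / (t ^ 2 + δ ^ 2) / √(t ^ 2 + δ ^ 2) ≤ 1 / δ := by gcongr
    _ = δ⁻¹ := one_div δ

theorem bp_abs {δ : ℝ} (hδ : 0 < δ) (t : ℝ) : |bp δ t| ≤ 1 := by
  have h3 : 0 < √(t ^ 2 + δ ^ 2) := Real.sqrt_pos.2 (bb_pos hδ t)
  unfold bp
  rw [abs_div, abs_of_pos h3, div_le_one h3]
  exact Real.le_sqrt_of_sq_le (by rw [sq_abs]; nlinarith [sq_nonneg δ])

theorem bp_zero (δ : ℝ) : bp δ 0 = 0 := by simp [bp]

theorem bb_near {δ : ℝ} (hδ : 0 < δ) (t : ℝ) : |bb δ t - (|t|)| ≤ δ := by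
  unfold bb
  have h1 : |t| ≤ √(t ^ 2 + δ ^ 2) :=
    Real.le_sqrt_of_sq_le (by rw [sq_abs]; nlinarith [sq_nonneg δ])
  have h2 : √(t ^ 2 + δ ^ 2) ≤ |t| + δ := by
    rw [Real.sqrt_le_left (by positivity)]
    nlinarith [sq_abs t, mul_nonneg (abs_nonneg t) hδ.le]
  rw [abs_le]
  constructor <;> linarith

section
variable {n : ℕ}

theorem inner_grad (f : E n → ℝ) (x v : E n) : inner ℝ (gradient f x) v = fderiv ℝ f x v := by
  unfold gradient
  exact InnerProductSpace.toDual_symm_apply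

theorem norm_grad (f : E n → ℝ) (x : E n) : ‖gradient f x‖ = ‖fderiv ℝ f x‖ := by
  unfold gradient
  rw [LinearIsometryEquiv.norm_map]

theorem cont_grad {f : E n → ℝ} (hf : ContDiff ℝ ∞ f) : Continuous (gradient f) :=
  (InnerProductSpace.toDual ℝ (E n)).symm.continuous.comp (hf.continuous_fderiv (by simp))

theorem supp_grad {f : E n → ℝ} (hf : HasCompactSupport f) : HasCompactSupport (gradient f) :=
  (hf.fderiv ℝ).comp_left (g := fun L : E n →L[ℝ] ℝ => (InnerProductSpace.toDual ℝ (E n)).symm L)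
    (by simp)

theorem memLp_test {f : E n → ℝ} (hf : ContDiff ℝ ∞ f) (hc : HasCompactSupport f) :
    MemLp f 2 volume := hf.continuous.memLp_of_hasCompactSupport hc

theorem memLp_grad {f : E n → ℝ} (hf : ContDiff ℝ ∞ f) (hc : HasCompactSupport f) :
    MemLp (gradient f) 2 volume := (cont_grad hf).memLp_of_hasCompactSupport (supp_grad hc)

/-- The coordinate vectors. -/
noncomputable abbrev ev (n : ℕ) (i : Fin n) : E n := EuclideanSpace.basisFun (Fin n) ℝ i

/-- The Laplacian. -/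
noncomputable def lap (η : E n → ℝ) (x : E n) : ℝ :=
  ∑ i, fderiv ℝ (fun z => fderiv ℝ η z (ev n i)) x (ev n i)

theorem smooth_part {η : E n → ℝ} (h : ContDiff ℝ ∞ η) (v : E n) :
    ContDiff ℝ ∞ (fun z => fderiv ℝ η z v) :=
  (h.fderiv_right (m := ∞) (by simp)).clm_apply contDiff_const

theorem supp_part {η : E n → ℝ} (h : HasCompactSupport η) (v : E n) :
    HasCompactSupport (fun z => fderiv ℝ η z v) :=
  (h.fderiv ℝ).comp_left (g := fun L : E n →L[ℝ] ℝ => L v) rfl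

theorem cont_lap {η : E n → ℝ} (h : ContDiff ℝ ∞ η) : Continuous (lap η) := by
  unfold lap
  refine continuous_finsetSum _ (fun i _ => ?_)
  exact (smooth_part (smooth_part h _) _).continuous

theorem supp_lap {η : E n → ℝ} (h : HasCompactSupport η) : HasCompactSupport (lap η) := by
  refine HasCompactSupport.intro h.isCompact (fun x hx => ?_)
  unfold lap
  refine Finset.sum_eq_zero (fun i _ => ?_)
  have h1 : (fun z => fderiv ℝ η z (ev n i)) =ᶠ[𝓝 x] fun _ => 0 := by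
    have h2 : (tsupport η)ᶜ ∈ 𝓝 x := (isClosed_tsupport η).isOpen_compl.mem_nhds hx
    filter_upwards [h2] with z hz
    have h3 : z ∉ Function.support (fderiv ℝ η) := fun h => hz (support_fderiv_subset ℝ h)
    rw [Function.notMem_support.1 h3]
    rfl
  rw [h1.fderiv_eq]
  simp

/-- Green's identity. -/
theorem green {η h : E n → ℝ} (hη : ContDiff ℝ ∞ η) (hηc : HasCompactSupport η)
    (hh : ContDiff ℝ ∞ h) :
    ∫ x, inner ℝ (gradient η x) (gradient h x) = - ∫ x, h x * lap η x := by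
  have h1 : ∀ x, inner ℝ (gradient η x) (gradient h x) =
      ∑ i, fderiv ℝ h x (ev n i) * fderiv ℝ η x (ev n i) := by
    intro x
    rw [← (EuclideanSpace.basisFun (Fin n) ℝ).sum_inner_mul_inner]
    apply Finset.sum_congr rfl
    intro i _
    rw [inner_grad, real_inner_comm, inner_grad, mul_comm]
  have h2 : ∀ x, h x * lap η x = ∑ i, h x * fderiv ℝ (fun z => fderiv ℝ η z (ev n i)) x (ev n i) := by
    intro x
    unfold lap
    rw [Finset.mul_sum]
  have hi1 : ∀ i, Integrable (fun x => fderiv ℝ h x (ev n i) * fderiv ℝ η x (ev n i)) := by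
    intro i
    refine Continuous.integrable_of_hasCompactSupport ?_ ?_
    · exact (smooth_part hh _).continuous.mul (smooth_part hη _).continuous
    · exact (supp_part hηc _).mul_left
  have hi2 : ∀ i, Integrable
      (fun x => h x * fderiv ℝ (fun z => fderiv ℝ η z (ev n i)) x (ev n i)) := by
    intro i
    refine Continuous.integrable_of_hasCompactSupport ?_ ?_
    · exact hh.continuous.mul (smooth_part (smooth_part hη _) _).continuous
    · exact (supp_part (supp_part hηc _) _).mul_left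
  have hi3 : ∀ i, Integrable (fun x => h x * fderiv ℝ η x (ev n i)) := by
    intro i
    refine Continuous.integrable_of_hasCompactSupport ?_ ?_
    · exact hh.continuous.mul (smooth_part hη _).continuous
    · exact (supp_part hηc _).mul_left
  simp only [h1, h2]
  rw [integral_finsetSum _ (fun i _ => hi1 i), integral_finsetSum _ (fun i _ => hi2 i),
    ← Finset.sum_neg_distrib]
  apply Finset.sum_congr rfl
  intro i _
  have := integral_mul_fderiv_eq_neg_fderiv_mul_of_integrable (μ := (volume : Measure (E n)))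
    (f := h) (g := fun z => fderiv ℝ η z (ev n i)) (v := ev n i) (hi1 i) (hi2 i) (hi3 i)
    (fun x _ => (hh.differentiable (by simp)) x)
    (fun x _ => ((smooth_part hη _).differentiable (by simp)) x)
  rw [this, neg_neg]

/-- The pointwise inequality behind Kato's inequality. -/
theorem kato_pt {a p g : E n} {B' B'' η H δ : ℝ} (hδ : 0 < δ) (h1 : |B'| ≤ 1) (h2 : 0 ≤ B'')
    (h3 : B'' ≤ δ⁻¹) (h4 : 0 ≤ η) (h5 : η ≤ H) :
    B' * inner ℝ a p - δ * ‖a‖ ^ 2 - (1 + H) * δ⁻¹ * ‖p - g‖ ^ 2 ≤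
      B' * inner ℝ a g + η * (B'' * inner ℝ p g) := by
  have e1 : inner ℝ a g = inner ℝ a p - inner ℝ a (p - g) := by
    rw [inner_sub_right]
    ring
  have e2 : B' * inner ℝ a (p - g) ≤ δ * ‖a‖ ^ 2 + δ⁻¹ * ‖p - g‖ ^ 2 := by
    have := abs_inner_le (p - g) a hδ
    rw [real_inner_comm] at this
    calc B' * inner ℝ a (p - g) ≤ |B' * inner ℝ a (p - g)| := le_abs_self _
      _ = |B'| * |inner ℝ a (p - g)| := abs_mul _ _
      _ ≤ 1 * |inner ℝ a (p - g)| := by gcongr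
      _ = |inner ℝ a (p - g)| := one_mul _
      _ ≤ _ := this
  have e3 : -‖p - g‖ ^ 2 ≤ inner ℝ p g := by
    have h6 : inner ℝ p g = ‖p‖ ^ 2 - inner ℝ p (p - g) := by
      rw [inner_sub_right, real_inner_self_eq_norm_sq]
      ring
    have h7 := real_inner_le_norm p (p - g)
    nlinarith [sq_nonneg (‖p‖ - ‖p - g‖), sq_nonneg ‖p‖, norm_nonneg p, norm_nonneg (p - g),
      sq_nonneg (2 * ‖p‖ - ‖p - g‖)]
  have e4 : -(H * δ⁻¹ * ‖p - g‖ ^ 2) ≤ η * (B'' * inner ℝ p g) := by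
    have h8 : 0 ≤ η * B'' := mul_nonneg h4 h2
    have h9 : η * B'' ≤ H * δ⁻¹ := mul_le_mul h5 h3 h2 (h4.trans h5)
    have h10 := mul_le_mul_of_nonneg_left e3 h8
    have h11 := mul_le_mul_of_nonneg_right h9 (sq_nonneg ‖p - g‖)
    nlinarith
  rw [e1]
  nlinarith

theorem kato_step {Ω : Set (E n)} {u w : E n → ℝ} {g : E n → E n} {lam : ℝ} (hlam : 0 ≤ lam)
    (hu : MemLp u 2 volume) (hg : MemLp g 2 volume) (hw : Test Ω w)
    (heq : ∀ φ, Test Ω φ → ∫ x, fderiv ℝ φ x (g x) = lam * ∫ x, u x * φ x)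
    {η : E n → ℝ} (hη : ContDiff ℝ ∞ η) (hηc : HasCompactSupport η) (hη0 : ∀ x, 0 ≤ η x)
    {H : ℝ} (hH : ∀ x, η x ≤ H) {δ : ℝ} (hδ : 0 < δ) :
    - ∫ x, |u x| * lap η x ≤ lam * (∫ x, |u x| * η x) +
      δ * ((∫ x, |lap η x|) + (∫ x, lap η x ^ 2) + ∫ x, ‖gradient η x‖ ^ 2) +
      δ⁻¹ * (∫ x, (w x - u x) ^ 2) + (1 + H) * δ⁻¹ * ∫ x, ‖gradient w x - g x‖ ^ 2 := by
  obtain ⟨hw1, hw2, hw3⟩ := hw
  set φ : E n → ℝ := fun x => η x * bp δ (w x) with hφ
  have hφ1 : ContDiff ℝ ∞ φ := hη.mul ((bp_smooth hδ).comp hw1)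
  have hφ2 : HasCompactSupport φ := hηc.mul_right
  have hφ3 : tsupport φ ⊆ Ω := by
    refine (closure_minimal ?_ (isClosed_tsupport w)).trans hw3
    intro x hx
    refine subset_tsupport _ ?_
    intro h0
    apply hx
    rw [hφ]
    simp only
    rw [h0, bp_zero, mul_zero]
  have hh : ContDiff ℝ ∞ (fun x => bb δ (w x)) := (bb_smooth hδ).comp hw1
  have hwd := fun x => (hw1.differentiable (by simp) x)
  have hηd := fun x => (hη.differentiable (by simp) x)
  have gh : ∀ x v, fderiv ℝ (fun x => bb δ (w x)) x v = bp δ (w x) * fderiv ℝ w x v := by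
    intro x v
    have := HasDerivAt.comp_hasFDerivAt (h₂ := bb δ) (f := w) x (bb_deriv hδ (w x))
      (hwd x).hasFDerivAt
    have h3 : fderiv ℝ (fun x => bb δ (w x)) x = _ := this.fderiv
    rw [h3]
    rfl
  have gφ : ∀ x v, fderiv ℝ φ x v = bp δ (w x) * fderiv ℝ η x v +
      η x * (δ ^ 2 / (w x ^ 2 + δ ^ 2) / √(w x ^ 2 + δ ^ 2) * fderiv ℝ w x v) := by
    intro x v
    have := HasDerivAt.comp_hasFDerivAt (h₂ := bp δ) (f := w) x (bp_deriv hδ (w x))
      (hwd x).hasFDerivAt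
    have h4 := (hηd x).hasFDerivAt.mul this
    have h3 : fderiv ℝ φ x = _ := h4.fderiv
    rw [h3]
    simp
    ring
  have e0 := heq φ ⟨hφ1, hφ2, hφ3⟩
  -- lower bound for the left side
  have hpt : ∀ x, inner ℝ (gradient η x) (gradient (fun x => bb δ (w x)) x) -
      δ * ‖gradient η x‖ ^ 2 - (1 + H) * δ⁻¹ * ‖gradient w x - g x‖ ^ 2 ≤
      fderiv ℝ φ x (g x) := by
    intro x
    have h1 := kato_pt (a := gradient η x) (p := gradient w x) (g := g x) hδ (bp_abs hδ (w x))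
      (bpp_nonneg δ (w x)) (bpp_le hδ (w x)) (hη0 x) (hH x)
    rw [inner_grad η x (g x), inner_grad w x (g x), ← gφ] at h1
    refine le_trans (le_of_eq ?_) h1
    congr 2
    rw [inner_grad, inner_grad, ← inner_grad, real_inner_comm, inner_grad, gh, ← inner_grad,
      real_inner_comm, inner_grad]
  have i1 : Integrable (fun x => inner ℝ (gradient η x) (gradient (fun x => bb δ (w x)) x)) := by
    refine Continuous.integrable_of_hasCompactSupport ((cont_grad hη).inner (cont_grad hh)) ?_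
    refine HasCompactSupport.intro (supp_grad hηc).isCompact (fun x hx => ?_)
    rw [image_eq_zero_of_notMem_tsupport hx, inner_zero_left]
  have i2 : Integrable (fun x => ‖gradient η x‖ ^ 2) := memLp_norm_sq (memLp_grad hη hηc)
  have i3 : Integrable (fun x => ‖gradient w x - g x‖ ^ 2) := by
    simpa using memLp_norm_sq ((memLp_grad hw1 hw2).sub hg)
  have i4 : Integrable (fun x => fderiv ℝ φ x (g x)) := by
    simp only [← inner_grad]
    exact int_inner (memLp_grad hφ1 hφ2) hg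
  have e1 : - (∫ x, bb δ (w x) * lap η x) - δ * (∫ x, ‖gradient η x‖ ^ 2) -
      (1 + H) * δ⁻¹ * (∫ x, ‖gradient w x - g x‖ ^ 2) ≤ ∫ x, fderiv ℝ φ x (g x) := by
    rw [← green hη hηc hh, ← integral_const_mul, ← integral_const_mul,
      ← integral_sub i1 (i2.const_mul _)]
    have i5 : Integrable (fun x => inner ℝ (gradient η x) (gradient (fun x => bb δ (w x)) x) -
      δ * ‖gradient η x‖ ^ 2) := i1.sub (i2.const_mul _)
    rw [← integral_sub i5 (i3.const_mul _)]
    exact integral_mono (i5.sub (i3.const_mul _)) i4 hpt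
  -- upper bound for the right side
  have hLp : MemLp (lap η) 2 volume := (cont_lap hη).memLp_of_hasCompactSupport (supp_lap hηc)
  have j1 : Integrable (fun x => |u x| * η x) := by
    exact hu.abs.integrable_mul (memLp_test hη hηc)
  have j2 : Integrable (fun x => |u x| * lap η x) := by
    exact hu.abs.integrable_mul hLp
  have e2 : ∫ x, u x * φ x ≤ ∫ x, |u x| * η x := by
    have j0 : Integrable (fun x => u x * φ x) := by
      exact hu.integrable_mul (memLp_test hφ1 hφ2)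
    refine integral_mono j0 j1 (fun x => ?_)
    show u x * (η x * bp δ (w x)) ≤ |u x| * η x
    have h1 := bp_abs hδ (w x)
    calc u x * (η x * bp δ (w x)) ≤ |u x * (η x * bp δ (w x))| := le_abs_self _
      _ = |u x| * η x * |bp δ (w x)| := by
        rw [abs_mul, abs_mul, abs_of_nonneg (hη0 x)]
        ring
      _ ≤ |u x| * η x * 1 := by
        have := mul_nonneg (abs_nonneg (u x)) (hη0 x)
        gcongr
      _ = |u x| * η x := mul_one _
  have e3 : - ∫ x, |u x| * lap η x ≤ - (∫ x, bb δ (w x) * lap η x) +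
      δ * (∫ x, |lap η x|) + δ * (∫ x, lap η x ^ 2) + δ⁻¹ * ∫ x, (w x - u x) ^ 2 := by
    have k1 : Integrable (fun x => bb δ (w x) * lap η x) := by
      refine Continuous.integrable_of_hasCompactSupport (hh.continuous.mul (cont_lap hη)) ?_
      exact (supp_lap hηc).mul_left
    have k2 : Integrable (fun x => |lap η x|) :=
      ((cont_lap hη).integrable_of_hasCompactSupport (supp_lap hηc)).abs
    have k3 : Integrable (fun x => lap η x ^ 2) := hLp.integrable_sq
    have k4 : Integrable (fun x => (w x - u x) ^ 2) := by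
      simpa using ((memLp_test hw1 hw2).sub hu).integrable_sq
    rw [← integral_neg, ← integral_neg, ← integral_const_mul, ← integral_const_mul,
      ← integral_const_mul]
    have k0 : Integrable (fun x => -(bb δ (w x) * lap η x)) := k1.neg
    rw [← integral_add k0 (k2.const_mul _)]
    have k5 : Integrable (fun x => -(bb δ (w x) * lap η x) + δ * |lap η x|) :=
      k0.add (k2.const_mul _)
    have k6 : Integrable (fun x => -(bb δ (w x) * lap η x) + δ * |lap η x| + δ * lap η x ^ 2) :=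
      k5.add (k3.const_mul _)
    rw [← integral_add k5 (k3.const_mul _), ← integral_add k6 (k4.const_mul _)]
    refine integral_mono j2.neg (k6.add (k4.const_mul _)) (fun x => ?_)
    show -(|u x| * lap η x) ≤ -(bb δ (w x) * lap η x) + δ * |lap η x| + δ * lap η x ^ 2 +
      δ⁻¹ * (w x - u x) ^ 2
    have l1 : |bb δ (w x) - (|u x|)| ≤ δ + |w x - u x| := by
      have a1 := bb_near hδ (w x)
      have a2 := abs_abs_sub_abs_le_abs_sub (w x) (u x)
      calc |bb δ (w x) - (|u x|)| = |(bb δ (w x) - (|w x|)) + (|w x| - (|u x|))| := by ring_nf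
        _ ≤ |bb δ (w x) - (|w x|)| + |(|w x|) - (|u x|)| := abs_add_le _ _
        _ ≤ _ := by linarith
    have l2 : (bb δ (w x) - |u x|) * lap η x ≤ (δ + |w x - u x|) * |lap η x| := by
      calc (bb δ (w x) - |u x|) * lap η x ≤ |(bb δ (w x) - |u x|) * lap η x| := le_abs_self _
        _ = |bb δ (w x) - (|u x|)| * |lap η x| := abs_mul _ _
        _ ≤ _ := by gcongr
    have l3 : |w x - u x| * |lap η x| ≤ δ * lap η x ^ 2 + δ⁻¹ * (w x - u x) ^ 2 := by
      have l4 : 0 ≤ δ⁻¹ * (|w x - u x| - δ * |lap η x|) ^ 2 := by positivity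
      have l5 : δ⁻¹ * (|w x - u x| - δ * |lap η x|) ^ 2 =
          δ⁻¹ * |w x - u x| ^ 2 - 2 * (|w x - u x| * |lap η x|) + δ * |lap η x| ^ 2 := by
        field_simp
        ring
      rw [sq_abs, sq_abs] at l5
      nlinarith [mul_nonneg (abs_nonneg (w x - u x)) (abs_nonneg (lap η x))]
    nlinarith
  have e4 := mul_le_mul_of_nonneg_left e2 hlam
  rw [e0] at e1
  linarith

/-- Kato's inequality. -/
theorem kato {Ω : Set (E n)} {u : E n → ℝ} {w : ℕ → E n → ℝ} {g : E n → E n} {lam : ℝ}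
    (hlam : 0 ≤ lam) (hu : MemLp u 2 volume) (hg : MemLp g 2 volume) (hw : ∀ k, Test Ω (w k))
    (hwu : Tendsto (fun k => ∫ x, (w k x - u x) ^ 2) atTop (𝓝 0))
    (hwg : Tendsto (fun k => ∫ x, ‖gradient (w k) x - g x‖ ^ 2) atTop (𝓝 0))
    (heq : ∀ φ, Test Ω φ → ∫ x, fderiv ℝ φ x (g x) = lam * ∫ x, u x * φ x)
    {η : E n → ℝ} (hη : ContDiff ℝ ∞ η) (hηc : HasCompactSupport η) (hη0 : ∀ x, 0 ≤ η x) :
    - ∫ x, |u x| * lap η x ≤ lam * ∫ x, |u x| * η x := by
  obtain ⟨H, hH⟩ : ∃ H, ∀ x, η x ≤ H := by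
    obtain ⟨C, hC⟩ := hηc.exists_bound_of_continuous hη.continuous
    exact ⟨C, fun x => (le_abs_self _).trans (hC x)⟩
  set M := (∫ x, |lap η x|) + (∫ x, lap η x ^ 2) + ∫ x, ‖gradient η x‖ ^ 2 with hM
  have h1 : ∀ δ : ℝ, 0 < δ → - ∫ x, |u x| * lap η x ≤ lam * (∫ x, |u x| * η x) + δ * M := by
    intro δ hδ
    have h2 := fun k => kato_step hlam hu hg (hw k) heq hη hηc hη0 hH hδ
    have h3 : Tendsto (fun k => lam * (∫ x, |u x| * η x) + δ * M +
        δ⁻¹ * (∫ x, (w k x - u x) ^ 2) + (1 + H) * δ⁻¹ * ∫ x, ‖gradient (w k) x - g x‖ ^ 2)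
        atTop (𝓝 (lam * (∫ x, |u x| * η x) + δ * M + δ⁻¹ * 0 + (1 + H) * δ⁻¹ * 0)) :=
      ((hwu.const_mul _).const_add _).add (hwg.const_mul _)
    have h4 := ge_of_tendsto' h3 h2
    simpa using h4
  have h5 : Tendsto (fun δ : ℝ => lam * (∫ x, |u x| * η x) + δ * M) (𝓝[>] 0)
      (𝓝 (lam * (∫ x, |u x| * η x) + 0 * M)) := by
    refine Tendsto.mono_left ?_ nhdsWithin_le_nhds
    exact ((continuous_const.add (continuous_id.mul continuous_const)).tendsto _)
  have h6 := ge_of_tendsto h5 (by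
    filter_upwards [self_mem_nhdsWithin] with δ hδ
    exact h1 δ hδ)
  simpa using h6

end

end Pool.Agent.X151.VB
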