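import Mathlib

/-!
Limits of quadratic integrals under convergence in mean square.
-/

namespace Pool.Agent.X151.VB

open MeasureTheory Set Metric Filter
open scoped ContDiff Topology

section
variable {X V : Type} [MeasurableSpace X] {μ : Measure X} [NormedAddCommGroup V]
  [InnerProductSpace ℝ V]

omit [InnerProductSpace ℝ V] in
theorem memLp_norm_sq {f : X → V} (hf : MemLp f 2 μ) : Integrable (fun x => ‖f x‖ ^ 2) μ := by
  have := hf.integrable_norm_pow (by norm_num)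
  simpa using this

theorem int_inner {f g : X → V} (hf : MemLp f 2 μ) (hg : MemLp g 2 μ) :
    Integrable (fun x => inner ℝ (f x) (g x)) μ := by
  refine ((memLp_norm_sq hf).add (memLp_norm_sq hg)).mono' (hf.1.inner hg.1) ?_
  filter_upwards with x
  rw [Real.norm_eq_abs]
  have h1 := abs_real_inner_le_norm (f x) (g x)
  have h2 := two_mul_le_add_sq ‖f x‖ ‖g x‖
  simp only [Pi.add_apply]
  nlinarith [norm_nonneg (f x), norm_nonneg (g x), mul_nonneg (norm_nonneg (f x)) (norm_nonneg (g x))]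

theorem abs_inner_le (a b : V) {δ : ℝ} (hδ : 0 < δ) :
    |inner ℝ a b| ≤ δ * ‖b‖ ^ 2 + δ⁻¹ * ‖a‖ ^ 2 := by
  have h1 := abs_real_inner_le_norm a b
  have h2 : 0 ≤ δ⁻¹ * (‖a‖ - δ * ‖b‖) ^ 2 := by positivity
  have h3 : δ⁻¹ * (‖a‖ - δ * ‖b‖) ^ 2 = δ⁻¹ * ‖a‖ ^ 2 - 2 * (‖a‖ * ‖b‖) + δ * ‖b‖ ^ 2 := by
    field_simp
    ring
  nlinarith [norm_nonneg a, norm_nonneg b, mul_nonneg (norm_nonneg a) (norm_nonneg b)]

theorem tendsto_inner {f : ℕ → X → V} {g : X → V}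
    (hf : ∀ k, MemLp (f k) 2 μ) (hg : MemLp g 2 μ)
    (h : Tendsto (fun k => ∫ x, ‖f k x‖ ^ 2 ∂μ) atTop (𝓝 0)) :
    Tendsto (fun k => ∫ x, inner ℝ (f k x) (g x) ∂μ) atTop (𝓝 0) := by
  rw [Metric.tendsto_atTop] at h ⊢
  intro ε hε
  set G := ∫ x, ‖g x‖ ^ 2 ∂μ with hG
  have hG0 : 0 ≤ G := integral_nonneg (fun x => by positivity)
  set δ := ε / (2 * (G + 1)) with hδ
  have hδ0 : 0 < δ := by positivity
  obtain ⟨N, hN⟩ := h (δ * (ε / 2)) (by positivity)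
  refine ⟨N, fun k hk => ?_⟩
  have h1 := hN k hk
  rw [Real.dist_eq, sub_zero] at h1 ⊢
  have h2 : |∫ x, inner ℝ (f k x) (g x) ∂μ| ≤ ∫ x, (δ * ‖g x‖ ^ 2 + δ⁻¹ * ‖f k x‖ ^ 2) ∂μ := by
    refine (abs_integral_le_integral_abs).trans (integral_mono (int_inner (hf k) hg).abs ?_ ?_)
    · exact ((memLp_norm_sq hg).const_mul _).add ((memLp_norm_sq (hf k)).const_mul _)
    · intro x
      exact abs_inner_le _ _ hδ0
  rw [integral_add ((memLp_norm_sq hg).const_mul _) ((memLp_norm_sq (hf k)).const_mul _),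
    integral_const_mul, integral_const_mul, ← hG] at h2
  have h3 : ∫ x, ‖f k x‖ ^ 2 ∂μ < δ * (ε / 2) := (le_abs_self _).trans_lt h1
  have h4 : δ⁻¹ * ∫ x, ‖f k x‖ ^ 2 ∂μ < ε / 2 := by
    rw [inv_mul_lt_iff₀ hδ0]
    exact h3
  have h5 : δ * G ≤ ε / 2 := by
    rw [hδ, div_mul_eq_mul_div, div_le_div_iff₀ (by positivity) (by norm_num)]
    nlinarith
  linarith

theorem tendsto_inner' {f : ℕ → X → V} {f0 g : X → V}
    (hf : ∀ k, MemLp (f k) 2 μ) (hf0 : MemLp f0 2 μ) (hg : MemLp g 2 μ)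
    (h : Tendsto (fun k => ∫ x, ‖f k x - f0 x‖ ^ 2 ∂μ) atTop (𝓝 0)) :
    Tendsto (fun k => ∫ x, inner ℝ (f k x) (g x) ∂μ) atTop (𝓝 (∫ x, inner ℝ (f0 x) (g x) ∂μ)) := by
  have h1 := tendsto_inner (fun k => (hf k).sub hf0) hg (by simpa using h)
  have h2 : ∀ k, ∫ x, inner ℝ (f k x) (g x) ∂μ =
      (∫ x, inner ℝ ((f k - f0) x) (g x) ∂μ) + ∫ x, inner ℝ (f0 x) (g x) ∂μ := by
    intro k
    rw [← integral_add (int_inner ((hf k).sub hf0) hg) (int_inner hf0 hg)]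
    apply integral_congr_ae
    filter_upwards with x
    rw [← inner_add_left]
    simp
  simp only [h2]
  simpa using h1.add_const (∫ x, inner ℝ (f0 x) (g x) ∂μ)

theorem tendsto_norm_sq {f : ℕ → X → V} {f0 : X → V}
    (hf : ∀ k, MemLp (f k) 2 μ) (hf0 : MemLp f0 2 μ)
    (h : Tendsto (fun k => ∫ x, ‖f k x - f0 x‖ ^ 2 ∂μ) atTop (𝓝 0)) :
    Tendsto (fun k => ∫ x, ‖f k x‖ ^ 2 ∂μ) atTop (𝓝 (∫ x, ‖f0 x‖ ^ 2 ∂μ)) := by
  have h1 := tendsto_inner (fun k => (hf k).sub hf0) hf0 (by simpa using h)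
  have h2 : ∀ k, ∫ x, ‖f k x‖ ^ 2 ∂μ = (∫ x, ‖f k x - f0 x‖ ^ 2 ∂μ) +
      2 * (∫ x, inner ℝ ((f k - f0) x) (f0 x) ∂μ) + ∫ x, ‖f0 x‖ ^ 2 ∂μ := by
    intro k
    have e1 : Integrable (fun x => ‖f k x - f0 x‖ ^ 2) μ := by
      simpa using memLp_norm_sq ((hf k).sub hf0)
    have e2 := int_inner ((hf k).sub hf0) hf0
    have e4 : Integrable (fun x => ‖f k x - f0 x‖ ^ 2 + 2 * inner ℝ ((f k - f0) x) (f0 x)) μ :=
      e1.add (e2.const_mul 2)
    rw [← integral_const_mul, ← integral_add e1 (e2.const_mul 2),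
      ← integral_add e4 (memLp_norm_sq hf0)]
    apply integral_congr_ae
    filter_upwards with x
    have e3 : f k x = (f k x - f0 x) + f0 x := by abel
    conv_lhs => rw [e3]
    rw [norm_add_sq_real]
    rfl
  simp only [h2]
  simpa using (h.add (h1.const_mul 2)).add_const (∫ x, ‖f0 x‖ ^ 2 ∂μ)

end

end Pool.Agent.X151.VB
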