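import Pool.Agent.X151.VB.Kato

/-!
A mean value inequality for functions satisfying Kato's inequality.
-/

namespace Pool.Agent.X151.VB

open MeasureTheory Set Metric Filter
open scoped ContDiff Topology

/-! ### The profiles -/

/-- The profile of the cut-off function. -/
noncomputable def MM (t : ℝ) : ℝ := expNegInvGlue (1 - t)

/-- The profile of the kernel. -/
noncomputable def kk (t : ℝ) : ℝ := 2 * ((1 - t)⁻¹ ^ 2 * expNegInvGlue (1 - t))

theorem MM_smooth : ContDiff ℝ ∞ MM := expNegInvGlue.contDiff.comp (by fun_prop)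

theorem MM_nonneg (t : ℝ) : 0 ≤ MM t := expNegInvGlue.nonneg _

theorem MM_zero {t : ℝ} (h : 1 ≤ t) : MM t = 0 := expNegInvGlue.zero_of_nonpos (by linarith)

theorem kk_smooth : ContDiff ℝ ∞ kk := by
  have h1 : ContDiff ℝ ∞ (fun t : ℝ => 1 - t) := by fun_prop
  have h2 := (expNegInvGlue.contDiff_polynomial_eval_inv_mul (n := ⊤) (Polynomial.X ^ 2)).comp h1
  have h3 : kk = fun t => 2 * (((fun x : ℝ => Polynomial.eval x⁻¹ (Polynomial.X ^ 2) *
      expNegInvGlue x) ∘ fun t => 1 - t) t) := by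
    funext t
    simp [kk]
  rw [h3]
  exact contDiff_const.mul h2

theorem kk_nonneg (t : ℝ) : 0 ≤ kk t := by
  have := expNegInvGlue.nonneg (1 - t)
  unfold kk
  positivity

theorem kk_zero {t : ℝ} (h : 1 ≤ t) : kk t = 0 := by
  unfold kk
  rw [expNegInvGlue.zero_of_nonpos (by linarith)]
  simp

theorem kk_pos : 0 < kk 0 := by
  unfold kk
  have := expNegInvGlue.pos_of_pos (x := 1 - 0) (by norm_num)
  positivity

theorem MM_deriv (t : ℝ) : HasDerivAt MM (-(kk t) / 2) t := by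
  have h1 := expNegInvGlue.hasDerivAt_polynomial_eval_inv_mul 1 (1 - t)
  have h2 : HasDerivAt (fun t : ℝ => 1 - t) (-1) t := by
    simpa using (hasDerivAt_id t).const_sub 1
  have h3 := HasDerivAt.comp (h := fun t : ℝ => 1 - t) t h1 h2
  have h4 : MM = (fun x : ℝ => Polynomial.eval x⁻¹ 1 * expNegInvGlue x) ∘ fun t => 1 - t := by
    funext t
    simp [MM]
  rw [h4]
  refine h3.congr_deriv ?_
  simp [kk]
  ring

theorem MM_le {t : ℝ} (ht : 0 ≤ t) : MM t ≤ kk t / 2 := by
  rcases le_or_gt 1 t with h | h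
  · rw [MM_zero h, kk_zero h]
    norm_num
  · unfold MM kk
    have h1 : 1 ≤ (1 - t)⁻¹ := by
      rw [one_le_inv₀ (by linarith)]
      linarith
    have h2 : 1 ≤ (1 - t)⁻¹ ^ 2 := one_le_pow₀ h1
    have h3 := expNegInvGlue.nonneg (1 - t)
    nlinarith [mul_nonneg (sub_nonneg.2 h2) h3]

theorem kk_bdd : ∃ C, 0 < C ∧ ∀ t, 0 ≤ t → kk t ≤ C := by
  obtain ⟨C, hC⟩ := isCompact_Icc.exists_bound_of_continuousOn (s := Icc (0:ℝ) 1)
    kk_smooth.continuous.continuousOn
  refine ⟨max C 1, by positivity, fun t ht => ?_⟩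
  rcases le_or_gt 1 t with h | h
  · rw [kk_zero h]
    positivity
  · exact ((le_abs_self _).trans (hC t ⟨ht, h.le⟩)).trans (le_max_left _ _)

section
variable {n : ℕ}

/-- The cut-off function. -/
noncomputable def eta (x : E n) (s : ℝ) (z : E n) : ℝ := MM (s ^ 2 * ‖z - x‖ ^ 2)

/-- The kernel. -/
noncomputable def GG (x : E n) (s : ℝ) (z : E n) : ℝ := s ^ n * kk (s ^ 2 * ‖z - x‖ ^ 2)

/-- The derivative of the kernel in the parameter. -/
noncomputable def dG (x : E n) (s : ℝ) (z : E n) : ℝ :=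
  n * s ^ (n - 1) * kk (s ^ 2 * ‖z - x‖ ^ 2) +
    s ^ n * (deriv kk (s ^ 2 * ‖z - x‖ ^ 2) * (2 * s * ‖z - x‖ ^ 2))

theorem eta_smooth (x : E n) (s : ℝ) : ContDiff ℝ ∞ (eta x s) := by
  have h1 : ContDiff ℝ ∞ (fun z : E n => s ^ 2 * ‖z - x‖ ^ 2) :=
    contDiff_const.mul ((contDiff_id.sub contDiff_const).norm_sq ℝ)
  exact MM_smooth.comp h1

theorem out_ball {x z : E n} {s : ℝ} (hs : 0 < s) (hz : z ∉ closedBall x s⁻¹) :
    1 ≤ s ^ 2 * ‖z - x‖ ^ 2 := by
  rw [mem_closedBall, dist_eq_norm, not_le] at hz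
  have h1 : 1 ≤ s * ‖z - x‖ := by
    have := mul_lt_mul_of_pos_left hz hs
    rw [mul_inv_cancel₀ hs.ne'] at this
    exact this.le
  have := one_le_pow₀ h1 (n := 2)
  rwa [mul_pow] at this

theorem eta_supp (x : E n) {s : ℝ} (hs : 0 < s) : HasCompactSupport (eta x s) := by
  refine HasCompactSupport.intro (isCompact_closedBall x s⁻¹) (fun z hz => ?_)
  exact MM_zero (out_ball hs hz)

theorem GG_cont (x : E n) (s : ℝ) : Continuous (GG x s) := by
  unfold GG
  exact continuous_const.mul (kk_smooth.continuous.comp (by fun_prop))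

theorem GG_zero (x : E n) {s : ℝ} (hs : 0 < s) {z : E n} (hz : z ∉ closedBall x s⁻¹) :
    GG x s z = 0 := by
  unfold GG
  rw [kk_zero (out_ball hs hz), mul_zero]

theorem GG_supp (x : E n) {s : ℝ} (hs : 0 < s) : HasCompactSupport (GG x s) :=
  HasCompactSupport.intro (isCompact_closedBall x s⁻¹) (fun _ hz => GG_zero x hs hz)

theorem GG_nonneg (x : E n) {s : ℝ} (hs : 0 < s) (z : E n) : 0 ≤ GG x s z :=
  mul_nonneg (by positivity) (kk_nonneg _)

theorem dG_cont (x : E n) : Continuous (fun p : ℝ × E n => dG x p.1 p.2) := by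
  unfold dG
  have h1 : Continuous (deriv kk) := kk_smooth.continuous_deriv (by simp)
  have h2 : Continuous (fun p : ℝ × E n => p.1 ^ 2 * ‖p.2 - x‖ ^ 2) := by fun_prop
  have h3 := kk_smooth.continuous.comp h2
  have h4 := h1.comp h2
  exact ((by fun_prop : Continuous fun p : ℝ × E n => (n:ℝ) * p.1 ^ (n - 1)).mul h3).add
    ((by fun_prop : Continuous fun p : ℝ × E n => p.1 ^ n).mul
      (h4.mul (by fun_prop : Continuous fun p : ℝ × E n => 2 * p.1 * ‖p.2 - x‖ ^ 2)))

theorem deriv_kk_zero {t : ℝ} (h : 1 ≤ t) : deriv kk t = 0 := by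
  have h1 : Tendsto (deriv kk) (𝓝[>] t) (𝓝 (deriv kk t)) :=
    ((kk_smooth.continuous_deriv (by simp)).tendsto t).mono_left nhdsWithin_le_nhds
  have h2 : Tendsto (deriv kk) (𝓝[>] t) (𝓝 0) := by
    refine (tendsto_const_nhds (x := (0:ℝ))).congr' ?_
    filter_upwards [self_mem_nhdsWithin] with r hr
    have h3 : kk =ᶠ[𝓝 r] fun _ => 0 := by
      filter_upwards [lt_mem_nhds hr] with q hq
      exact kk_zero (h.trans hq.le)
    rw [h3.deriv_eq]
    simp
  exact tendsto_nhds_unique h1 h2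

theorem dG_zero (x : E n) {s : ℝ} (hs : 0 < s) {z : E n} (hz : z ∉ closedBall x s⁻¹) :
    dG x s z = 0 := by
  unfold dG
  rw [kk_zero (out_ball hs hz), deriv_kk_zero (out_ball hs hz)]
  ring

theorem GG_deriv (x z : E n) (s : ℝ) : HasDerivAt (fun s => GG x s z) (dG x s z) s := by
  unfold GG dG
  have h1 : HasDerivAt (fun s : ℝ => s ^ 2 * ‖z - x‖ ^ 2) (2 * s * ‖z - x‖ ^ 2) s := by
    simpa using ((hasDerivAt_id s).pow 2).mul_const (‖z - x‖ ^ 2)
  have h2 := HasDerivAt.comp (h₂ := kk) (h := fun s : ℝ => s ^ 2 * ‖z - x‖ ^ 2) s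
    ((kk_smooth.differentiable (by simp)) _).hasDerivAt h1
  exact (hasDerivAt_pow n s).mul h2

/-- The Laplacian of the cut-off function is the derivative of the kernel. -/
theorem lap_eta (x : E n) (s : ℝ) (z : E n) :
    s ^ n * lap (eta x s) z = - (s ^ 3 * dG x s z) := by
  have d1 : ∀ z v : E n, HasFDerivAt (fun z : E n => s ^ 2 * ‖z - x‖ ^ 2)
      ((2 * s ^ 2) • innerSL ℝ (z - x)) z := by
    intro z v
    have h1 : HasFDerivAt (fun z : E n => z - x) (ContinuousLinearMap.id ℝ (E n)) z :=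
      (hasFDerivAt_id z).sub_const x
    have h2 := h1.norm_sq.const_mul (s ^ 2)
    refine h2.congr_fderiv ?_
    ext v
    simp
    ring
  have d2 : ∀ z v : E n, fderiv ℝ (eta x s) z v =
      -(kk (s ^ 2 * ‖z - x‖ ^ 2)) * s ^ 2 * inner ℝ (z - x) v := by
    intro z v
    have h1 := HasDerivAt.comp_hasFDerivAt (h₂ := MM) (f := fun z : E n => s ^ 2 * ‖z - x‖ ^ 2) z
      (MM_deriv _) (d1 z v)
    have h2 : fderiv ℝ (eta x s) z = _ := h1.fderiv
    rw [h2]
    simp
    simp only [inner_sub_left]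
    ring
  have d3 : ∀ z v : E n, fderiv ℝ (fun z => fderiv ℝ (eta x s) z v) z v =
      -(deriv kk (s ^ 2 * ‖z - x‖ ^ 2)) * (2 * s ^ 4) * (inner ℝ (z - x) v * inner ℝ (z - x) v) -
        (kk (s ^ 2 * ‖z - x‖ ^ 2)) * s ^ 2 * inner ℝ v v := by
    intro z v
    simp only [d2]
    have h1 := HasDerivAt.comp_hasFDerivAt (h₂ := kk) (f := fun z : E n => s ^ 2 * ‖z - x‖ ^ 2) z
      ((kk_smooth.differentiable (by simp)) _).hasDerivAt (d1 z v)
    have h2 : HasFDerivAt (fun z : E n => inner ℝ (z - x) v) (innerSL ℝ v) z := by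
      have h3 : HasFDerivAt (fun z : E n => z - x) (ContinuousLinearMap.id ℝ (E n)) z :=
        (hasFDerivAt_id z).sub_const x
      have h4 := (innerSL ℝ v).hasFDerivAt.comp z h3
      have h5 : (fun z : E n => inner ℝ (z - x) v) = (innerSL ℝ v) ∘ fun z => z - x := by
        funext z
        simp [real_inner_comm]
      rw [h5]
      exact h4
    have h3 := ((h1.neg.mul_const (s ^ 2)).mul h2)
    have h4 : fderiv ℝ (fun z => -(kk (s ^ 2 * ‖z - x‖ ^ 2)) * s ^ 2 * inner ℝ (z - x) v) z = _ :=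
      h3.fderiv
    rw [h4]
    simp
    simp only [inner_sub_left]
    ring
  have d4 : ∑ i, inner ℝ (z - x) (ev n i) * inner ℝ (z - x) (ev n i) = ‖z - x‖ ^ 2 := by
    rw [← real_inner_self_eq_norm_sq, ← (EuclideanSpace.basisFun (Fin n) ℝ).sum_inner_mul_inner]
    apply Finset.sum_congr rfl
    intro i _
    rw [real_inner_comm (z - x) (ev n i)]
  have d5 : ∑ i : Fin n, inner ℝ (ev n i) (ev n i) = (n : ℝ) := by
    have : ∀ i : Fin n, inner ℝ (ev n i) (ev n i) = (1 : ℝ) := by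
      intro i
      rw [real_inner_self_eq_norm_sq]
      simp
    simp only [this]
    simp
  unfold lap
  simp only [d3]
  rw [Finset.sum_sub_distrib, ← Finset.mul_sum, ← Finset.mul_sum, d4, d5]
  unfold dG
  rcases Nat.eq_zero_or_pos n with hn | hn
  · subst hn
    simp
    ring
  · obtain ⟨k, rfl⟩ : ∃ k, n = k + 1 := ⟨n - 1, by omega⟩
    simp only [Nat.add_sub_cancel]
    ring

end

end Pool.Agent.X151.VB
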