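import Pool.Agent.X151.VB.Slab

/-!
The lowest eigenvalue of the slices of a convex body.
-/

namespace Pool.Agent.X151.VB

open MeasureTheory Set Metric Filter
open scoped ContDiff Topology

theorem int_comp_affine (g : ℝ → ℝ) {c : ℝ} (s : ℝ) :
    ∫ x, g (c * (x - s)) = |c|⁻¹ * ∫ x, g x := by
  have h1 := integral_sub_right_eq_self (μ := (volume : Measure ℝ)) (fun x => g (c * x)) s
  rw [h1, Measure.integral_comp_mul_left, abs_inv, smul_eq_mul]

theorem deriv_comp_affine {φ : ℝ → ℝ} (h : Differentiable ℝ φ) (c s x : ℝ) :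
    HasDerivAt (fun x => φ (c * (x - s))) (c * deriv φ (c * (x - s))) x := by
  have h1 : HasDerivAt (fun x : ℝ => c * (x - s)) c x := by
    simpa using ((hasDerivAt_id x).sub_const s).const_mul c
  have h2 := HasDerivAt.comp (h₂ := φ) (h := fun x : ℝ => c * (x - s)) x
    ((h (c * (x - s))).hasDerivAt) h1
  rw [mul_comm]
  exact h2

section
variable {m : ℕ}

theorem fderiv_comp_smul {v : (Fin m → ℝ) → ℝ} (h : Differentiable ℝ v) (c : ℝ)
    (y z : Fin m → ℝ) : fderiv ℝ (fun y => v (c • y)) y z = c * fderiv ℝ v (c • y) z := by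
  have h1 : HasFDerivAt (fun y : Fin m → ℝ => c • y) (c • ContinuousLinearMap.id ℝ (Fin m → ℝ)) y :=
    (hasFDerivAt_id y).const_smul c
  have h2 := HasFDerivAt.comp (g := v) (f := fun y : Fin m → ℝ => c • y) y
    ((h (c • y)).hasFDerivAt) h1
  have h3 : fderiv ℝ (fun y => v (c • y)) y = _ := h2.fderiv
  rw [h3]
  simp

theorem slice_geom {U : Set (F m)} (hUo : IsOpen U) (hUc : Convex ℝ U) {D : ℝ} (hD : 0 < D)
    (hax : ∀ ζ ∈ Icc 0 D, ((ζ, 0) : F m) ∈ closure U) {S τ : ℝ} (hS : 0 < S)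
    (hST : 2 * S / D < 1) {s t : ℝ} {y : Fin m → ℝ} (hy : (s, y) ∈ U) (ht : t ∈ Ioo (0:ℝ) 1)
    (hs : (τ = 1 ∧ 0 ≤ s ∧ s ≤ D / 2) ∨ (τ = -1 ∧ D / 2 ≤ s ∧ s ≤ D)) :
    ((s + τ * S * t, (1 - 2 * S / D) • y) : F m) ∈ U := by
  have h1 : s + τ * (t * D / 2) ∈ Icc 0 D := by
    have h0 := mul_lt_mul_of_pos_right ht.2 hD
    have h0' := mul_pos ht.1 hD
    rcases hs with ⟨rfl, h2, h3⟩ | ⟨rfl, h2, h3⟩
    · constructor <;> nlinarith
    · constructor <;> nlinarith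
  have h2 := hax _ h1
  have h3 : (s, y) ∈ interior U := by rwa [hUo.interior_eq]
  have h4 := hUc.combo_interior_closure_mem_interior h3 h2 (a := 1 - 2 * S / D)
    (b := 2 * S / D) (by linarith) (by positivity) (by ring)
  rw [hUo.interior_eq] at h4
  convert h4 using 1
  ext1
  · simp
    field_simp
    ring
  · simp

/-- The lowest eigenvalue of a slice. -/
theorem slice_ineq {U : Set (F m)} (hUo : IsOpen U) (hUc : Convex ℝ U) {D lam : ℝ} (hD : 0 < D)
    (hax : ∀ ζ ∈ Icc 0 D, ((ζ, 0) : F m) ∈ closure U)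
    (hlam : ∀ W, Test U W → lam * ∫ p, W p ^ 2 ≤ ∫ p, (ds W p ^ 2 + ey W p))
    {φ : ℝ → ℝ} (hφ : Test (Ioo (0:ℝ) 1) φ) (hφ0 : 0 < ∫ t, φ t ^ 2)
    {S : ℝ} (hS : 0 < S) (hST : 2 * S / D < 1)
    {s : ℝ} (hs0 : 0 ≤ s) (hsD : s ≤ D) {v : (Fin m → ℝ) → ℝ} (hv : Test {y | (s, y) ∈ U} v) :
    (1 - 2 * S / D) ^ 2 * (lam - (∫ t, deriv φ t ^ 2) / (∫ t, φ t ^ 2) / S ^ 2) *
      ∫ y, v y ^ 2 ≤ ∫ y, ∑ i, (fderiv ℝ v y (Pi.single i 1)) ^ 2 := by
  obtain ⟨τ, hτ⟩ : ∃ τ : ℝ, (τ = 1 ∧ 0 ≤ s ∧ s ≤ D / 2) ∨ (τ = -1 ∧ D / 2 ≤ s ∧ s ≤ D) := by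
    rcases le_total s (D / 2) with h | h
    · exact ⟨1, Or.inl ⟨rfl, hs0, h⟩⟩
    · exact ⟨-1, Or.inr ⟨rfl, h, hsD⟩⟩
  have hτ2 : τ * τ = 1 := by
    rcases hτ with ⟨rfl, -⟩ | ⟨rfl, -⟩ <;> norm_num
  have hτa : |τ| = 1 := by
    rcases hτ with ⟨rfl, -⟩ | ⟨rfl, -⟩ <;> norm_num
  set T := 2 * S / D with hT
  have hT0 : 0 < T := by positivity
  have h1T : 0 < 1 - T := by linarith
  set c := τ / S with hc
  have hcS : c * c = (S ^ 2)⁻¹ := by
    rw [hc, div_mul_div_comm, hτ2, one_div, sq]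
  have hca : |c|⁻¹ = S := by
    rw [hc, abs_div, hτa, abs_of_pos hS, one_div, inv_inv]
  set k := (1 - T)⁻¹ with hk
  have hk0 : 0 < k := by positivity
  obtain ⟨hφ1, hφ2, hφ3⟩ := hφ
  obtain ⟨hv1, hv2, hv3⟩ := hv
  have hφd : Differentiable ℝ φ := hφ1.differentiable (by simp)
  have hvd : Differentiable ℝ v := hv1.differentiable (by simp)
  set f : F m → ℝ := fun p => φ (c * (p.1 - s)) * v (k • p.2) with hf
  -- the trial function
  have hfs : ContDiff ℝ ∞ f := by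
    refine ContDiff.mul (hφ1.comp ?_) (hv1.comp ?_) <;> fun_prop
  set K : Set (F m) := (fun q : F m => ((s + τ * S * q.1, (1 - T) • q.2) : F m)) ''
    (tsupport φ ×ˢ tsupport v) with hK
  have hKc : IsCompact K := by
    refine (hφ2.isCompact.prod hv2.isCompact).image ?_
    fun_prop
  have hKU : K ⊆ U := by
    rintro p ⟨q, ⟨hq1, hq2⟩, rfl⟩
    exact slice_geom hUo hUc hD hax hS hST (hv3 hq2) (hφ3 hq1) hτ
  have hf0 : ∀ p, p ∉ K → f p = 0 := by
    intro p hp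
    by_contra h
    apply hp
    have h' : φ (c * (p.1 - s)) * v (k • p.2) ≠ 0 := h
    have h1 : φ (c * (p.1 - s)) ≠ 0 := fun h0 => h' (by rw [h0, zero_mul])
    have h2 : v (k • p.2) ≠ 0 := fun h0 => h' (by rw [h0, mul_zero])
    refine ⟨(c * (p.1 - s), k • p.2), ⟨subset_tsupport _ h1, subset_tsupport _ h2⟩, ?_⟩
    ext1
    · show s + τ * S * (c * (p.1 - s)) = p.1
      have : τ * S * c = 1 := by
        rw [hc]
        field_simp
        linarith
      linear_combination (p.1 - s) * this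
    · show (1 - T) • k • p.2 = p.2
      rw [smul_smul, hk, mul_inv_cancel₀ h1T.ne', one_smul]
  have hft : Test U f := by
    refine ⟨hfs, HasCompactSupport.intro hKc hf0, ?_⟩
    refine (closure_minimal ?_ hKc.isClosed).trans hKU
    intro p hp
    by_contra h
    exact hp (hf0 p h)
  have key := hlam f hft
  -- derivatives of the trial function
  have hfd : ∀ p, HasFDerivAt f ((φ (c * (p.1 - s))) •
      ((fderiv ℝ (fun y => v (k • y)) p.2).comp (ContinuousLinearMap.snd ℝ ℝ (Fin m → ℝ))) +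
      (v (k • p.2)) • ((c * deriv φ (c * (p.1 - s))) • ContinuousLinearMap.fst ℝ ℝ (Fin m → ℝ)))
      p := by
    intro p
    have a1 : HasFDerivAt (fun p : F m => φ (c * (p.1 - s)))
        ((c * deriv φ (c * (p.1 - s))) • ContinuousLinearMap.fst ℝ ℝ (Fin m → ℝ)) p :=
      HasDerivAt.comp_hasFDerivAt (h₂ := fun x => φ (c * (x - s))) (f := fun p : F m => p.1) p
        (deriv_comp_affine hφd c s p.1) hasFDerivAt_fst
    have a2 : HasFDerivAt (fun p : F m => v (k • p.2))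
        ((fderiv ℝ (fun y => v (k • y)) p.2).comp (ContinuousLinearMap.snd ℝ ℝ (Fin m → ℝ))) p := by
      have : DifferentiableAt ℝ (fun y => v (k • y)) p.2 := by
        have h3 : Differentiable ℝ (fun y => v (k • y)) := hvd.comp (by fun_prop)
        exact h3 _
      exact HasFDerivAt.comp (g := fun y => v (k • y)) (f := fun p : F m => p.2) p
        this.hasFDerivAt hasFDerivAt_snd
    exact a1.mul a2
  have e1 : ∀ p : F m, f p ^ 2 = (φ (c * (p.1 - s)) ^ 2) * (v (k • p.2) ^ 2) := by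
    intro p
    rw [hf]
    ring
  have e2 : ∀ p : F m, ds f p ^ 2 = (c * c * deriv φ (c * (p.1 - s)) ^ 2) * (v (k • p.2) ^ 2) := by
    intro p
    unfold ds
    rw [(hfd p).fderiv]
    simp
    ring
  have e3 : ∀ p : F m, ey f p = (φ (c * (p.1 - s)) ^ 2) *
      (k * k * ∑ i, (fderiv ℝ v (k • p.2) (Pi.single i 1)) ^ 2) := by
    intro p
    unfold ey
    rw [(hfd p).fderiv, Finset.mul_sum, Finset.mul_sum]
    apply Finset.sum_congr rfl
    intro i _
    simp only [_root_.add_apply, _root_.smul_apply,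
      ContinuousLinearMap.comp_apply, ContinuousLinearMap.coe_snd', ContinuousLinearMap.coe_fst',
      smul_eq_mul, mul_zero, add_zero]
    rw [fderiv_comp_smul hvd]
    ring
  have hq : |(k ^ m)⁻¹| = (1 - T) ^ m := by
    rw [hk, inv_pow, inv_inv, abs_of_pos (by positivity)]
  have i1 : ∫ p : F m, f p ^ 2 = (S * ∫ t, φ t ^ 2) * ((1 - T) ^ m * ∫ y, v y ^ 2) := by
    simp only [e1]
    rw [Measure.volume_eq_prod, integral_prod_mul (fun x : ℝ => φ (c * (x - s)) ^ 2)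
      (fun y : Fin m → ℝ => v (k • y) ^ 2)]
    rw [int_comp_affine (fun x => φ x ^ 2), hca,
      Measure.integral_comp_smul volume (fun y => v y ^ 2) k]
    simp only [Module.finrank_fintype_fun_eq_card, Fintype.card_fin, smul_eq_mul, hq]
  have i2 : ∫ p : F m, ds f p ^ 2 = ((S ^ 2)⁻¹ * (S * ∫ t, deriv φ t ^ 2)) *
      ((1 - T) ^ m * ∫ y, v y ^ 2) := by
    simp only [e2]
    rw [Measure.volume_eq_prod, integral_prod_mul (fun x : ℝ => c * c * deriv φ (c * (x - s)) ^ 2)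
      (fun y : Fin m → ℝ => v (k • y) ^ 2), integral_const_mul]
    rw [int_comp_affine (fun x => deriv φ x ^ 2), hca, hcS,
      Measure.integral_comp_smul volume (fun y => v y ^ 2) k]
    simp only [Module.finrank_fintype_fun_eq_card, Fintype.card_fin, smul_eq_mul, hq]
  have i3 : ∫ p : F m, ey f p = (S * ∫ t, φ t ^ 2) *
      (k * k * ((1 - T) ^ m * ∫ y, ∑ i, (fderiv ℝ v y (Pi.single i 1)) ^ 2)) := by
    simp only [e3]
    rw [Measure.volume_eq_prod, integral_prod_mul (fun x : ℝ => φ (c * (x - s)) ^ 2)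
      (fun y : Fin m → ℝ => k * k * ∑ i, (fderiv ℝ v (k • y) (Pi.single i 1)) ^ 2),
      integral_const_mul]
    rw [int_comp_affine (fun x => φ x ^ 2), hca,
      Measure.integral_comp_smul volume
        (fun y => ∑ i, (fderiv ℝ v y (Pi.single i 1)) ^ 2) k]
    simp only [Module.finrank_fintype_fun_eq_card, Fintype.card_fin, smul_eq_mul, hq]
  rw [integral_add (int_ds2 hft) (int_ey hft), i1, i2, i3] at key
  set P := ∫ t, φ t ^ 2 with hP
  set P' := ∫ t, deriv φ t ^ 2 with hP'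
  set Vv := ∫ y, v y ^ 2 with hVv
  set EV := ∫ y, ∑ i, (fderiv ℝ v y (Pi.single i 1)) ^ 2 with hEV
  have hqp : 0 < (1 - T) ^ m := by positivity
  have key2 : lam * Vv ≤ P' / P / S ^ 2 * Vv + k * k * EV := by
    have h1 : 0 < S * P * (1 - T) ^ m := by positivity
    rw [← mul_le_mul_iff_right₀ h1]
    calc S * P * (1 - T) ^ m * (lam * Vv) = lam * (S * P * ((1 - T) ^ m * Vv)) := by ring
      _ ≤ _ := key
      _ = S * P * (1 - T) ^ m * (P' / P / S ^ 2 * Vv + k * k * EV) := by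
        field_simp
  have key3 := mul_le_mul_of_nonneg_left key2 (sq_nonneg (1 - T))
  have h5 : (1 - T) ^ 2 * (k * k) = 1 := by
    rw [hk]
    field_simp
  calc (1 - T) ^ 2 * (lam - P' / P / S ^ 2) * Vv
      = (1 - T) ^ 2 * (lam * Vv) - (1 - T) ^ 2 * (P' / P / S ^ 2 * Vv) := by ring
    _ ≤ (1 - T) ^ 2 * (k * k) * EV := by linarith
    _ = EV := by rw [h5, one_mul]

/-- The longitudinal energy is small. -/
theorem long_energy {U : Set (F m)} (hUo : IsOpen U) (hUc : Convex ℝ U) {D lam : ℝ} (hD : 0 < D)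
    (hs : ∀ p ∈ U, 0 ≤ p.1 ∧ p.1 ≤ D) (hax : ∀ ζ ∈ Icc 0 D, ((ζ, 0) : F m) ∈ closure U)
    (hlam0 : 0 ≤ lam)
    (hlam : ∀ W, Test U W → lam * ∫ p, W p ^ 2 ≤ ∫ p, (ds W p ^ 2 + ey W p))
    {φ : ℝ → ℝ} (hφ : Test (Ioo (0:ℝ) 1) φ) (hφ0 : 0 < ∫ t, φ t ^ 2)
    {S : ℝ} (hS : 0 < S) (hST : 2 * S / D < 1) {W : F m → ℝ} (hW : Test U W) :
    ∫ p, ds W p ^ 2 ≤ (∫ p, (ds W p ^ 2 + ey W p)) -
      (lam - (∫ t, deriv φ t ^ 2) / (∫ t, φ t ^ 2) / S ^ 2 - 2 * (2 * S / D) * lam) *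
        ∫ p, W p ^ 2 := by
  set A := (∫ t, deriv φ t ^ 2) / (∫ t, φ t ^ 2) / S ^ 2 with hA
  have hA0 : 0 ≤ A := by
    have : 0 ≤ ∫ t, deriv φ t ^ 2 := integral_nonneg (fun t => sq_nonneg _)
    positivity
  set T := 2 * S / D with hT
  have hT0 : 0 < T := by positivity
  have hκ : lam - A - 2 * T * lam ≤ (1 - T) ^ 2 * (lam - A) := by
    nlinarith [mul_nonneg (sq_nonneg T) hlam0, mul_nonneg (mul_nonneg hT0.le (by linarith : 0 ≤ 2 - T)) hA0]
  have h1 : (lam - A - 2 * T * lam) * ∫ p, W p ^ 2 ≤ ∫ p, ey W p := by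
    have e1 : ∫ p, W p ^ 2 = ∫ s : ℝ, ∫ y : Fin m → ℝ, W (s, y) ^ 2 := integral_prod _ (int_W2 hW)
    have e2 : ∫ p, ey W p = ∫ s : ℝ, ∫ y : Fin m → ℝ, ey W (s, y) := integral_prod _ (int_ey hW)
    rw [e1, e2, ← integral_const_mul]
    refine integral_mono ((int_W2 hW).integral_prod_left.const_mul _)
      (int_ey hW).integral_prod_left (fun s => ?_)
    show (lam - A - 2 * T * lam) * ∫ y : Fin m → ℝ, W (s, y) ^ 2 ≤ ∫ y : Fin m → ℝ, ey W (s, y)
    have hey : ∀ y, ey W (s, y) = ∑ i, (fderiv ℝ (fun y => W (s, y)) y (Pi.single i 1)) ^ 2 := by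
      intro y
      unfold ey
      simp only [(hW.slice_y s).2]
    by_cases hsD : 0 ≤ s ∧ s ≤ D
    · have h2 := slice_ineq hUo hUc hD hax hlam hφ hφ0 hS hST hsD.1 hsD.2 (hW.slice_y s).1
      simp only [hey]
      refine le_trans ?_ h2
      exact mul_le_mul_of_nonneg_right hκ (integral_nonneg (fun y => sq_nonneg _))
    · have h3 : ∀ y, W (s, y) = 0 := by
        intro y
        by_contra h
        exact hsD (hs (s, y) (hW.2.2 (subset_tsupport _ h)))
      simp only [h3]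
      simp only [ne_eq, OfNat.ofNat_ne_zero, not_false_eq_true, zero_pow, integral_zero, mul_zero]
      refine integral_nonneg (fun y => ?_)
      show 0 ≤ ey W (s, y)
      unfold ey
      exact Finset.sum_nonneg (fun i _ => sq_nonneg _)
  rw [integral_add (int_ds2 hW) (int_ey hW)]
  linarith

end

end Pool.Agent.X151.VB
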