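import Pool.Agent.X151.VB.Mean

/-!
The pointwise bound.
-/

namespace Pool.Agent.X151.VB

open MeasureTheory Set Metric Filter
open scoped ContDiff Topology

section
variable {n : ℕ}

/-- The averages of `|u|`. -/
noncomputable def JJ (u : E n → ℝ) (x : E n) (s : ℝ) : ℝ := ∫ z, |u z| * GG x s z

/-- The mass of the kernel. -/
noncomputable def Ik (n : ℕ) : ℝ := ∫ y : E n, kk (‖y‖ ^ 2)

theorem GG_int (x : E n) {s : ℝ} (hs : 0 < s) : ∫ z, GG x s z = Ik n := by
  have h1 : ∀ z, GG x s z = s ^ n * (fun y : E n => kk (‖s • y‖ ^ 2)) (z - x) := by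
    intro z
    simp only [GG, norm_smul, Real.norm_eq_abs, mul_pow, sq_abs]
  simp only [h1]
  rw [integral_const_mul, integral_sub_right_eq_self (fun y : E n => kk (‖s • y‖ ^ 2)) x,
    Measure.integral_comp_smul volume (fun y : E n => kk (‖y‖ ^ 2)) s]
  rw [finrank_euclideanSpace, Fintype.card_fin, abs_of_pos (by positivity), smul_eq_mul, Ik,
    ← mul_assoc, mul_inv_cancel₀ (by positivity), one_mul]

theorem Ik_pos (n : ℕ) : 0 < Ik n := by
  have h1 := GG_int (n := n) 0 one_pos
  rw [← h1]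
  have h0 : GG (0 : E n) 1 0 ≠ 0 := by
    simp [GG]
    exact kk_pos.ne'
  refine (GG_cont (0 : E n) 1).integral_pos_of_hasCompactSupport_nonneg_nonzero
    (GG_supp 0 one_pos) (fun z => GG_nonneg 0 one_pos z) h0

theorem JJ_deriv {u : E n → ℝ} (hu : MemLp u 2 volume) (x : E n) {s : ℝ} (hs : 0 < s) :
    HasDerivAt (JJ u x) (∫ z, |u z| * dG x s z) s := by
  obtain ⟨C, hC⟩ := (isCompact_Icc.prod (isCompact_closedBall x (2 / s))).exists_bound_of_continuousOn
    (s := Icc (s / 2) (2 * s) ×ˢ closedBall x (2 / s)) (dG_cont x).continuousOn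
  have hul : IntegrableOn u (closedBall x (2 / s)) volume :=
    (hu.locallyIntegrable (by norm_num)).integrableOn_isCompact (isCompact_closedBall _ _)
  have hG2 : MemLp (GG x s) 2 volume := (GG_cont x s).memLp_of_hasCompactSupport (GG_supp x hs)
  have hbd : ∀ z, ∀ t ∈ Ioo (s / 2) (2 * s), ‖|u z| * dG x t z‖ ≤
      (closedBall x (2 / s)).indicator (fun z => |u z| * C) z := by
    intro z t ht
    have ht0 : 0 < t := by linarith [ht.1]
    by_cases hz : z ∈ closedBall x (2 / s)
    · rw [indicator_of_mem hz, norm_mul, Real.norm_eq_abs, abs_abs]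
      gcongr
      exact hC (t, z) ⟨⟨ht.1.le, ht.2.le⟩, hz⟩
    · rw [indicator_of_notMem hz, dG_zero x ht0, mul_zero, norm_zero]
      intro h
      apply hz
      refine closedBall_subset_closedBall ?_ h
      rw [inv_eq_one_div, div_le_div_iff₀ ht0 hs]
      linarith [ht.1]
  have := hasDerivAt_integral_of_dominated_loc_of_deriv_le (μ := (volume : Measure (E n)))
    (F := fun t z => |u z| * GG x t z) (F' := fun t z => |u z| * dG x t z) (x₀ := s)
    (s := Ioo (s / 2) (2 * s))
    (bound := (closedBall x (2 / s)).indicator (fun z => |u z| * C))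
    (Ioo_mem_nhds (by linarith) (by linarith))
    (Eventually.of_forall (fun t => hu.abs.1.mul (GG_cont x t).aestronglyMeasurable))
    (hu.abs.integrable_mul hG2)
    (hu.abs.1.mul ((dG_cont x).comp (by fun_prop : Continuous fun z : E n => ((s, z) : ℝ × E n))).aestronglyMeasurable)
    (Eventually.of_forall hbd)
    ((integrable_indicator_iff measurableSet_closedBall).2 (hul.abs.mul_const C))
    (Eventually.of_forall (fun z t _ => (GG_deriv x z t).const_mul _))
  exact this.2

theorem JJ_ineq {u : E n → ℝ} (hu : MemLp u 2 volume) {lam : ℝ} (hlam : 0 ≤ lam)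
    (hK : ∀ η : E n → ℝ, ContDiff ℝ ∞ η → HasCompactSupport η → (∀ x, 0 ≤ η x) →
      - ∫ x, |u x| * lap η x ≤ lam * ∫ x, |u x| * η x) (x : E n) {s : ℝ} (hs : 0 < s) :
    s ^ 3 * ∫ z, |u z| * dG x s z ≤ lam / 2 * JJ u x s := by
  have h1 := hK (eta x s) (eta_smooth x s) (eta_supp x hs) (fun z => MM_nonneg _)
  have h2 : s ^ 3 * ∫ z, |u z| * dG x s z = s ^ n * - ∫ z, |u z| * lap (eta x s) z := by
    rw [← integral_const_mul, mul_neg, ← integral_const_mul, ← integral_neg]
    apply integral_congr_ae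
    filter_upwards with z
    have := lap_eta x s z
    linear_combination |u z| * this
  have hG2 : MemLp (GG x s) 2 volume := (GG_cont x s).memLp_of_hasCompactSupport (GG_supp x hs)
  have h3 : s ^ n * ∫ z, |u z| * eta x s z ≤ JJ u x s / 2 := by
    unfold JJ
    rw [← integral_const_mul, ← integral_div]
    refine integral_mono ?_ ?_ (fun z => ?_)
    · exact (hu.abs.integrable_mul (memLp_test (eta_smooth x s) (eta_supp x hs))).const_mul _
    · exact (hu.abs.integrable_mul hG2).div_const _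
    · show s ^ n * (|u z| * eta x s z) ≤ |u z| * GG x s z / 2
      have h4 := MM_le (t := s ^ 2 * ‖z - x‖ ^ 2) (by positivity)
      have h5 : 0 ≤ s ^ n * |u z| := by positivity
      have h6 := mul_le_mul_of_nonneg_left h4 h5
      unfold eta GG
      nlinarith
  rw [h2]
  calc s ^ n * - ∫ z, |u z| * lap (eta x s) z ≤ s ^ n * (lam * ∫ x_1, |u x_1| * eta x s x_1) := by
        gcongr
    _ = lam * (s ^ n * ∫ z, |u z| * eta x s z) := by ring
    _ ≤ lam * (JJ u x s / 2) := by gcongr
    _ = _ := by ring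

theorem JJ_anti {u : E n → ℝ} (hu : MemLp u 2 volume) {lam : ℝ} (hlam : 0 ≤ lam)
    (hK : ∀ η : E n → ℝ, ContDiff ℝ ∞ η → HasCompactSupport η → (∀ x, 0 ≤ η x) →
      - ∫ x, |u x| * lap η x ≤ lam * ∫ x, |u x| * η x) (x : E n) :
    AntitoneOn (fun s => JJ u x s * Real.exp (lam / 4 * (s ^ 2)⁻¹)) (Ioi 0) := by
  have hd : ∀ s, 0 < s → HasDerivAt (fun s => JJ u x s * Real.exp (lam / 4 * (s ^ 2)⁻¹))
      ((∫ z, |u z| * dG x s z) * Real.exp (lam / 4 * (s ^ 2)⁻¹) +
        JJ u x s * (Real.exp (lam / 4 * (s ^ 2)⁻¹) * (lam / 4 * (-(2 * s) / (s ^ 2) ^ 2)))) s := by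
    intro s hs
    have h1 : HasDerivAt (fun s : ℝ => lam / 4 * (s ^ 2)⁻¹)
        (lam / 4 * (-(2 * s) / (s ^ 2) ^ 2)) s := by
      have h2 : HasDerivAt (fun s : ℝ => s ^ 2) (2 * s) s := by
        simpa using hasDerivAt_pow 2 s
      exact (h2.fun_inv (by positivity)).const_mul _
    exact (JJ_deriv hu x hs).mul h1.exp
  refine antitoneOn_of_deriv_nonpos (convex_Ioi 0) (fun s hs => ?_) (fun s hs => ?_)
    (fun s hs => ?_)
  · exact (hd s hs).continuousAt.continuousWithinAt
  · rw [interior_Ioi] at hs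
    exact (hd s hs).differentiableAt.differentiableWithinAt
  · rw [interior_Ioi] at hs
    have hs0 : 0 < s := hs
    rw [(hd s hs).deriv]
    have h1 := JJ_ineq hu hlam hK x hs0
    have h2 : (∫ z, |u z| * dG x s z) * Real.exp (lam / 4 * (s ^ 2)⁻¹) +
        JJ u x s * (Real.exp (lam / 4 * (s ^ 2)⁻¹) * (lam / 4 * (-(2 * s) / (s ^ 2) ^ 2))) =
        Real.exp (lam / 4 * (s ^ 2)⁻¹) * (s ^ 3)⁻¹ *
          (s ^ 3 * (∫ z, |u z| * dG x s z) - lam / 2 * JJ u x s) := by
      field_simp
      ring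
    rw [h2]
    refine mul_nonpos_of_nonneg_of_nonpos (by positivity) (by linarith)

theorem leb {u : E n → ℝ} (hu : MemLp u 2 volume) :
    ∀ᵐ x : E n, Tendsto (fun s => JJ u x s) atTop (𝓝 (Ik n * |u x|)) := by
  obtain ⟨C, hC0, hC⟩ := kk_bdd
  have hl := IsUnifLocDoublingMeasure.ae_tendsto_average_norm_sub (volume : Measure (E n))
    (hu.locallyIntegrable (by norm_num)) 1
  filter_upwards [hl] with x hx
  have h1 : Tendsto (fun s : ℝ => ⨍ y in closedBall x s⁻¹, ‖u y - u x‖) atTop (𝓝 0) := by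
    refine hx (fun _ => x) (fun s => s⁻¹) tendsto_inv_atTop_nhdsGT_zero ?_
    filter_upwards [eventually_gt_atTop 0] with s hs
    rw [one_mul]
    exact mem_closedBall_self (by positivity)
  have h2 : Tendsto (fun s : ℝ => C * (volume : Measure (E n)).real (closedBall 0 1) *
      ⨍ y in closedBall x s⁻¹, ‖u y - u x‖) atTop (𝓝 0) := by
    simpa using h1.const_mul (C * (volume : Measure (E n)).real (closedBall 0 1))
  rw [tendsto_iff_norm_sub_tendsto_zero]
  refine squeeze_zero' (Eventually.of_forall (fun s => norm_nonneg _)) ?_ h2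
  filter_upwards [eventually_gt_atTop 0] with s hs
  have hG1 : Integrable (GG x s) volume := (GG_cont x s).integrable_of_hasCompactSupport (GG_supp x hs)
  have hG2 : MemLp (GG x s) 2 volume := (GG_cont x s).memLp_of_hasCompactSupport (GG_supp x hs)
  have e1 : JJ u x s - Ik n * |u x| = ∫ z, (|u z| - |u x|) * GG x s z := by
    unfold JJ
    have hJ : Integrable (fun z => |u z| * GG x s z) volume := hu.abs.integrable_mul hG2
    rw [← GG_int x hs, mul_comm, ← integral_const_mul,
      ← integral_sub hJ (hG1.const_mul _)]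
    apply integral_congr_ae
    filter_upwards with z
    ring
  have hul : IntegrableOn u (closedBall x s⁻¹) volume :=
    (hu.locallyIntegrable (by norm_num)).integrableOn_isCompact (isCompact_closedBall _ _)
  have hi : IntegrableOn (fun z => ‖u z - u x‖) (closedBall x s⁻¹) volume := by
    refine (hul.sub ?_).norm
    exact integrableOn_const (by exact measure_closedBall_lt_top.ne)
  have e2 : ‖∫ z, (|u z| - |u x|) * GG x s z‖ ≤
      ∫ z, (closedBall x s⁻¹).indicator (fun z => s ^ n * C * ‖u z - u x‖) z := by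
    refine norm_integral_le_of_norm_le
      ((integrable_indicator_iff measurableSet_closedBall).2 (hi.const_mul _))
      (Eventually.of_forall (fun z => ?_))
    by_cases hz : z ∈ closedBall x s⁻¹
    · rw [indicator_of_mem hz, norm_mul]
      have a1 : ‖|u z| - |u x|‖ ≤ ‖u z - u x‖ := abs_abs_sub_abs_le_abs_sub _ _
      have a2 : ‖GG x s z‖ ≤ s ^ n * C := by
        rw [Real.norm_eq_abs, abs_of_nonneg (GG_nonneg x hs z)]
        unfold GG
        have := hC (s ^ 2 * ‖z - x‖ ^ 2) (by positivity)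
        gcongr
      calc ‖|u z| - |u x|‖ * ‖GG x s z‖ ≤ ‖u z - u x‖ * (s ^ n * C) := by gcongr
        _ = _ := by ring
    · rw [indicator_of_notMem hz, GG_zero x hs hz, mul_zero, norm_zero]
  rw [e1]
  refine e2.trans (le_of_eq ?_)
  rw [integral_indicator measurableSet_closedBall, integral_const_mul, setAverage_eq, smul_eq_mul,
    Measure.addHaar_real_closedBall' volume x (by positivity : 0 ≤ s⁻¹), finrank_euclideanSpace,
    Fintype.card_fin]
  have hV : 0 < (volume : Measure (E n)).real (closedBall 0 1) :=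
    ENNReal.toReal_pos (measure_closedBall_pos _ _ one_pos).ne' measure_closedBall_lt_top.ne
  have hsn : 0 < s ^ n := by positivity
  rw [inv_pow, mul_inv, inv_inv]
  field_simp

/-- The pointwise bound. -/
theorem sup_bound {u : E n → ℝ} (hu : MemLp u 2 volume) {lam : ℝ} (hlam : 0 ≤ lam)
    (hK : ∀ η : E n → ℝ, ContDiff ℝ ∞ η → HasCompactSupport η → (∀ x, 0 ≤ η x) →
      - ∫ x, |u x| * lap η x ≤ lam * ∫ x, |u x| * η x) {C : ℝ} (hC : ∀ t, 0 ≤ t → kk t ≤ C) :
    ∀ᵐ x : E n, ∀ s β : ℝ, 0 < s → 0 < β → Ik n * |u x| ≤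
      (β / 2 * Ik n + (2 * β)⁻¹ * (s ^ n * C * ∫ z in closedBall x s⁻¹, u z ^ 2)) *
        Real.exp (lam / 4 * (s ^ 2)⁻¹) := by
  filter_upwards [leb hu] with x hx s β hs hβ
  have h1 : Tendsto (fun s => JJ u x s * Real.exp (lam / 4 * (s ^ 2)⁻¹)) atTop
      (𝓝 (Ik n * |u x|)) := by
    have h2 : Tendsto (fun s : ℝ => Real.exp (lam / 4 * (s ^ 2)⁻¹)) atTop (𝓝 1) := by
      have h3 : Tendsto (fun s : ℝ => lam / 4 * (s ^ 2)⁻¹) atTop (𝓝 (lam / 4 * 0)) :=
        (tendsto_inv_atTop_zero.comp (tendsto_pow_atTop (by norm_num))).const_mul _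
      rw [mul_zero] at h3
      have h4 := (Real.continuous_exp.tendsto 0).comp h3
      rw [Real.exp_zero] at h4
      exact h4
    simpa using hx.mul h2
  have h2 : Ik n * |u x| ≤ JJ u x s * Real.exp (lam / 4 * (s ^ 2)⁻¹) := by
    refine le_of_tendsto h1 ?_
    filter_upwards [eventually_ge_atTop s] with t ht
    exact JJ_anti hu hlam hK x hs (lt_of_lt_of_le hs ht) ht
  refine h2.trans ?_
  gcongr
  have hG1 : Integrable (GG x s) volume := (GG_cont x s).integrable_of_hasCompactSupport (GG_supp x hs)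
  have hG2 : MemLp (GG x s) 2 volume := (GG_cont x s).memLp_of_hasCompactSupport (GG_supp x hs)
  have hCs : ∀ z, GG x s z ≤ s ^ n * C := by
    intro z
    unfold GG
    have := hC (s ^ 2 * ‖z - x‖ ^ 2) (by positivity)
    gcongr
  have hu2 := hu.integrable_sq
  have hi : Integrable (fun z => (closedBall x s⁻¹).indicator (fun z => s ^ n * C * u z ^ 2) z) := by
    refine (integrable_indicator_iff measurableSet_closedBall).2 ?_
    exact (hu2.const_mul _).integrableOn
  have h3 : JJ u x s ≤ ∫ z, (β / 2 * GG x s z +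
      (2 * β)⁻¹ * (closedBall x s⁻¹).indicator (fun z => s ^ n * C * u z ^ 2) z) := by
    refine integral_mono (hu.abs.integrable_mul hG2) ((hG1.const_mul _).add (hi.const_mul _))
      (fun z => ?_)
    show |u z| * GG x s z ≤ β / 2 * GG x s z +
      (2 * β)⁻¹ * (closedBall x s⁻¹).indicator (fun z => s ^ n * C * u z ^ 2) z
    by_cases hz : z ∈ closedBall x s⁻¹
    · rw [indicator_of_mem hz]
      have a1 : |u z| ≤ β / 2 + (2 * β)⁻¹ * u z ^ 2 := by
        have a2 : β / 2 + (2 * β)⁻¹ * u z ^ 2 - |u z| = (2 * β)⁻¹ * (β - |u z|) ^ 2 := by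
          rw [← sq_abs (u z)]
          field_simp
          ring
        have a3 : 0 ≤ (2 * β)⁻¹ * (β - |u z|) ^ 2 := by positivity
        linarith
      have a4 := mul_le_mul_of_nonneg_right a1 (GG_nonneg x hs z)
      have a5 := mul_le_mul_of_nonneg_left (hCs z) (by positivity : 0 ≤ (2 * β)⁻¹ * u z ^ 2)
      nlinarith
    · rw [indicator_of_notMem hz, GG_zero x hs hz]
      simp
  rw [integral_add (hG1.const_mul _) (hi.const_mul _), integral_const_mul, integral_const_mul,
    GG_int x hs, integral_indicator measurableSet_closedBall, integral_const_mul] at h3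
  exact h3

end

end Pool.Agent.X151.VB
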